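import Mathlib

set_option autoImplicit false

/-! Increasing bijections of the real line with one sided dyadic-slope linear germs. -/

namespace Pool.Agent.H245R3.TF

/-- increasing bijections of the line -/
abbrev H := ℝ ≃o ℝ

theorem two_zpow_pos (k : ℤ) : (0 : ℝ) < 2 ^ k := zpow_pos (by norm_num) k

theorem mulA (f g : H) (x : ℝ) : (f * g) x = f (g x) := rfl
theorem oneA (x : ℝ) : (1 : H) x = x := rfl
theorem invL (f : H) (x : ℝ) : f⁻¹ (f x) = x := f.symm_apply_apply x
theorem invR (f : H) (x : ℝ) : f (f⁻¹ x) = x := f.apply_symm_apply x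

/-- right germ of `f` at `x` is linear of slope `2 ^ k` -/
def RL (f : H) (x : ℝ) (k : ℤ) : Prop :=
  ∃ δ > 0, ∀ y, x ≤ y → y < x + δ → f y = f x + 2 ^ k * (y - x)

/-- left germ of `f` at `x` is linear of slope `2 ^ k` -/
def LL (f : H) (x : ℝ) (k : ℤ) : Prop :=
  ∃ δ > 0, ∀ y, x - δ < y → y ≤ x → f y = f x + 2 ^ k * (y - x)

theorem RL.one (x : ℝ) : RL 1 x 0 := ⟨1, one_pos, fun y _ _ => by simp [oneA]⟩
theorem LL.one (x : ℝ) : LL 1 x 0 := ⟨1, one_pos, fun y _ _ => by simp [oneA]⟩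

theorem RL.mul {f g : H} {x : ℝ} {k k' : ℤ} (hf : RL f (g x) k') (hg : RL g x k) :
    RL (f * g) x (k' + k) := by
  obtain ⟨δ, hδ, h⟩ := hf
  obtain ⟨ε, hε, h'⟩ := hg
  have h2 := two_zpow_pos k
  refine ⟨min ε (δ / 2 ^ k), lt_min hε (div_pos hδ h2), fun y hy hy' => ?_⟩
  have e1 : y < x + ε := lt_of_lt_of_le hy' (by gcongr; exact min_le_left _ _)
  have e2 : y - x < δ / 2 ^ k := by
    have := lt_of_lt_of_le hy' (add_le_add_right (min_le_right ε (δ / 2 ^ k)) x)
    linarith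
  have e3 : 2 ^ k * (y - x) < δ := by
    rw [lt_div_iff₀ h2] at e2
    linarith
  have e4 := h' y hy e1
  rw [mulA, mulA, e4, h _ (by have := mul_nonneg h2.le (sub_nonneg.2 hy); linarith) (by linarith),
    zpow_add₀ (by norm_num)]
  ring

theorem LL.mul {f g : H} {x : ℝ} {k k' : ℤ} (hf : LL f (g x) k') (hg : LL g x k) :
    LL (f * g) x (k' + k) := by
  obtain ⟨δ, hδ, h⟩ := hf
  obtain ⟨ε, hε, h'⟩ := hg
  have h2 := two_zpow_pos k
  refine ⟨min ε (δ / 2 ^ k), lt_min hε (div_pos hδ h2), fun y hy hy' => ?_⟩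
  have e1 : x - ε < y := by
    have := min_le_left ε (δ / 2 ^ k)
    linarith
  have e2 : x - y < δ / 2 ^ k := by
    have := min_le_right ε (δ / 2 ^ k)
    linarith
  have e3 : 2 ^ k * (x - y) < δ := by
    rw [lt_div_iff₀ h2] at e2
    linarith
  have e4 := h' y e1 hy'
  have e5 := mul_nonneg h2.le (sub_nonneg.2 hy')
  rw [mulA, mulA, e4, h _ (by nlinarith) (by nlinarith),
    zpow_add₀ (by norm_num)]
  ring

theorem RL.inv {f : H} {x : ℝ} {k : ℤ} (hf : RL f x k) : RL f⁻¹ (f x) (-k) := by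
  obtain ⟨δ, hδ, h⟩ := hf
  have h2 := two_zpow_pos k
  refine ⟨2 ^ k * δ, mul_pos h2 hδ, fun y hy hy' => ?_⟩
  have e1 : f (x + (2 ^ k)⁻¹ * (y - f x)) = y := by
    rw [h]
    · field_simp
      ring
    · have := mul_nonneg (inv_pos.2 h2).le (sub_nonneg.2 hy)
      linarith
    · have : (2 ^ k)⁻¹ * (y - f x) < δ := by
        rw [inv_mul_lt_iff₀ h2]
        linarith
      linarith
  rw [zpow_neg]
  conv_lhs => rw [← e1]
  rw [invL, invL]

theorem LL.inv {f : H} {x : ℝ} {k : ℤ} (hf : LL f x k) : LL f⁻¹ (f x) (-k) := by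
  obtain ⟨δ, hδ, h⟩ := hf
  have h2 := two_zpow_pos k
  refine ⟨2 ^ k * δ, mul_pos h2 hδ, fun y hy hy' => ?_⟩
  have e0 : (2 ^ k)⁻¹ * (f x - y) < δ := by
    rw [inv_mul_lt_iff₀ h2]
    linarith
  have e00 := mul_nonneg (inv_pos.2 h2).le (sub_nonneg.2 hy')
  have e1 : f (x + (2 ^ k)⁻¹ * (y - f x)) = y := by
    rw [h]
    · field_simp
      ring
    · nlinarith
    · nlinarith
  rw [zpow_neg]
  conv_lhs => rw [← e1]
  rw [invL, invL]

theorem RL.unique {f : H} {x : ℝ} {k k' : ℤ} (h : RL f x k) (h' : RL f x k') : k = k' := by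
  obtain ⟨δ, hδ, h⟩ := h
  obtain ⟨ε, hε, h'⟩ := h'
  have hm : 0 < min δ ε := lt_min hδ hε
  have e1 := h (x + min δ ε / 2) (by linarith) (by have := min_le_left δ ε; linarith)
  have e2 := h' (x + min δ ε / 2) (by linarith) (by have := min_le_right δ ε; linarith)
  have e3 : (2 : ℝ) ^ k * (min δ ε / 2) = 2 ^ k' * (min δ ε / 2) := by
    rw [e1] at e2
    have : x + min δ ε / 2 - x = min δ ε / 2 := by ring
    rw [this] at e2
    linarith
  have e4 : (2 : ℝ) ^ k = 2 ^ k' := mul_right_cancel₀ (by positivity) e3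
  exact zpow_right_injective₀ (by norm_num) (by norm_num) e4

/-- transfer of right germs -/
theorem RL.congr {f g : H} {x δ : ℝ} {k : ℤ} (hδ : 0 < δ)
    (hfg : ∀ y, x ≤ y → y < x + δ → f y = g y) (h : RL f x k) : RL g x k := by
  obtain ⟨ε, hε, h⟩ := h
  refine ⟨min δ ε, lt_min hδ hε, fun y hy hy' => ?_⟩
  rw [← hfg y hy (lt_of_lt_of_le hy' (by gcongr; exact min_le_left _ _)),
    ← hfg x le_rfl (by linarith),
    h y hy (lt_of_lt_of_le hy' (by gcongr; exact min_le_right _ _))]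

/-- piecewise linear bijections -/
def PLG : Subgroup H where
  carrier := {f | ∀ x, (∃ k, RL f x k) ∧ (∃ k, LL f x k)}
  one_mem' := fun x => ⟨⟨0, RL.one x⟩, ⟨0, LL.one x⟩⟩
  mul_mem' := by
    intro f g hf hg x
    obtain ⟨⟨k, h⟩, ⟨l, h'⟩⟩ := hg x
    obtain ⟨⟨k1, h1⟩, ⟨l1, h1'⟩⟩ := hf (g x)
    exact ⟨⟨_, h1.mul h⟩, ⟨_, h1'.mul h'⟩⟩
  inv_mem' := by
    intro f hf x
    obtain ⟨⟨k, h⟩, ⟨l, h'⟩⟩ := hf (f⁻¹ x)
    have h1 := h.inv
    have h2 := h'.inv
    rw [invR] at h1 h2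
    exact ⟨⟨_, h1⟩, ⟨_, h2⟩⟩

theorem mem_PLG {f : H} : f ∈ PLG ↔ ∀ x, (∃ k, RL f x k) ∧ (∃ k, LL f x k) := Iff.rfl

open Classical in
/-- exponent of the right slope -/
noncomputable def sl (f : H) (x : ℝ) : ℤ := if h : ∃ k, RL f x k then h.choose else 0

theorem sl_spec {f : H} (hf : f ∈ PLG) (x : ℝ) : RL f x (sl f x) := by
  have h := (hf x).1
  unfold sl
  rw [dif_pos h]
  exact h.choose_spec

theorem sl_eq {f : H} {x : ℝ} {k : ℤ} (h : RL f x k) : sl f x = k := by
  have h' : ∃ k, RL f x k := ⟨k, h⟩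
  unfold sl
  rw [dif_pos h']
  exact h'.choose_spec.unique h

theorem sl_mul {f g : H} (hf : f ∈ PLG) (hg : g ∈ PLG) (x : ℝ) :
    sl (f * g) x = sl f (g x) + sl g x := sl_eq ((sl_spec hf _).mul (sl_spec hg x))

theorem sl_inv {f : H} (hf : f ∈ PLG) (x : ℝ) : sl f⁻¹ (f x) = - sl f x :=
  sl_eq (sl_spec hf x).inv

theorem sl_one (x : ℝ) : sl 1 x = 0 := sl_eq (RL.one x)

/-- `g` is a positive bump with support `(a, b)` -/
structure Bump (g : H) (a b : ℝ) : Prop where
  lt : a < b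
  left : ∀ x, x ≤ a → g x = x
  right : ∀ x, b ≤ x → g x = x
  pos : ∀ x, a < x → x < b → x < g x

theorem Bump.le {g : H} {a b : ℝ} (h : Bump g a b) (x : ℝ) : x ≤ g x := by
  rcases le_or_gt x a with h1 | h1
  · rw [h.left x h1]
  · rcases le_or_gt b x with h2 | h2
    · rw [h.right x h2]
    · exact (h.pos x h1 h2).le

theorem Bump.fix_iff {g : H} {a b : ℝ} (h : Bump g a b) (x : ℝ) : g x = x ↔ x ≤ a ∨ b ≤ x := by
  constructor
  · intro hx
    by_contra hc
    push_neg at hc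
    exact absurd hx (h.pos x hc.1 hc.2).ne'
  · rintro (h1 | h1)
    · exact h.left x h1
    · exact h.right x h1

theorem Bump.unique {g : H} {a b a' b' : ℝ} (h : Bump g a b) (h' : Bump g a' b') :
    a = a' ∧ b = b' := by
  have key : ∀ x, (x ≤ a ∨ b ≤ x) ↔ (x ≤ a' ∨ b' ≤ x) := fun x => by
    rw [← h.fix_iff, ← h'.fix_iff]
  have h1 := h.lt
  have h2 := h'.lt
  constructor
  · apply le_antisymm
    · by_contra hc
      push_neg at hc
      -- a' < a
      rcases le_or_gt b' a with h3 | h3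
      · have := (key ((max a b' + min b (b + 1)) / 2)).2 (Or.inr ?_)
        · rw [max_eq_left h3, min_eq_left (by linarith)] at this
          rcases this with h4 | h4 <;> linarith
        · rw [max_eq_left h3, min_eq_left (by linarith)]
          linarith
      · have := (key ((a' + a) / 2)).1 (Or.inl (by linarith))
        rcases this with h4 | h4 <;> linarith
    · by_contra hc
      push_neg at hc
      rcases le_or_gt b a' with h3 | h3
      · have := (key ((a' + b') / 2)).1 (Or.inr (by linarith))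
        rcases this with h4 | h4 <;> linarith
      · have := (key ((a + a') / 2)).2 (Or.inl (by linarith))
        rcases this with h4 | h4 <;> linarith
  · apply le_antisymm
    · by_contra hc
      push_neg at hc
      -- b' < b
      rcases le_or_gt b' a with h3 | h3
      · have := (key ((a' + b') / 2)).1 (Or.inl (by linarith))
        rcases this with h4 | h4 <;> linarith
      · have := (key ((b' + b) / 2)).2 (Or.inr (by linarith))
        rcases this with h4 | h4 <;> linarith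
    · by_contra hc
      push_neg at hc
      rcases le_or_gt b a' with h3 | h3
      · have := (key ((a + b) / 2)).2 (Or.inl (by linarith))
        rcases this with h4 | h4 <;> linarith
      · have := (key ((b + b') / 2)).1 (Or.inr (by linarith))
        rcases this with h4 | h4 <;> linarith

theorem Bump.conj {g : H} {a b : ℝ} (h : Bump g a b) (u : H) : Bump (u * g * u⁻¹) (u a) (u b) := by
  have e : ∀ x, (u * g * u⁻¹) x = u (g (u⁻¹ x)) := fun x => rfl
  refine ⟨u.lt_iff_lt.2 h.lt, fun x hx => ?_, fun x hx => ?_, fun x hx hx' => ?_⟩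
  · rw [e, h.left, invR]
    rw [← u.le_iff_le, invR]
    exact hx
  · rw [e, h.right, invR]
    rw [← u.le_iff_le, invR]
    exact hx
  · rw [e]
    conv_lhs => rw [← invR u x]
    rw [u.lt_iff_lt]
    apply h.pos
    · rw [← u.lt_iff_lt, invR]
      exact hx
    · rw [← u.lt_iff_lt, invR]
      exact hx'

theorem Bump.pow {g : H} {a b : ℝ} (h : Bump g a b) {n : ℕ} (hn : 1 ≤ n) : Bump (g ^ n) a b := by
  induction n, hn using Nat.le_induction with
  | base => simpa using h
  | succ n hn ih =>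
    rw [pow_succ']
    refine ⟨h.lt, fun x hx => ?_, fun x hx => ?_, fun x hx hx' => ?_⟩
    · rw [mulA, ih.left x hx, h.left x hx]
    · rw [mulA, ih.right x hx, h.right x hx]
    · rw [mulA]
      exact lt_of_lt_of_le (ih.pos x hx hx') (h.le _)

/-- an element commuting with a bump fixes the end points of its support -/
theorem Bump.fix_of_comm {g u : H} {a b : ℝ} (h : Bump g a b) (hu : u * g = g * u) :
    u a = a ∧ u b = b := by
  have e : u * g * u⁻¹ = g := by rw [hu, mul_assoc, mul_inv_cancel, mul_one]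
  have h1 := h.conj u
  rw [e] at h1
  obtain ⟨h2, h3⟩ := h.unique h1
  exact ⟨h2.symm, h3.symm⟩

/-- bumps with disjoint supports commute -/
theorem Bump.comm {g h : H} {a b c d : ℝ} (hg : Bump g a b) (hh : Bump h c d) (hbc : b ≤ c) :
    g * h = h * g := by
  have h1 := hg.lt
  have h2 := hh.lt
  have ga : g a = a := hg.left a le_rfl
  have gb : g b = b := hg.right b le_rfl
  have hc : h c = c := hh.left c le_rfl
  have hd : h d = d := hh.right d le_rfl
  ext x
  rw [mulA, mulA]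
  rcases le_or_gt x b with h3 | h3
  · have : g x ≤ b := by
      rw [← gb]; exact g.le_iff_le.2 h3
    rw [hh.left x (h3.trans hbc), hh.left (g x) (this.trans hbc)]
  · have h4 : b ≤ h x := by
      have := hh.le x
      linarith
    rw [hg.right x h3.le, hg.right _ h4]

theorem Bump.strip {g : H} {a b : ℝ} (h : Bump g a b) {x : ℝ} (hx : a ≤ x) (hx' : x ≤ b) :
    a ≤ g x ∧ g x ≤ b := by
  constructor
  · exact hx.trans (h.le x)
  · rw [← h.right b le_rfl]
    exact g.le_iff_le.2 hx'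

/-- the powers of a bump move points arbitrarily close to the left end point -/
theorem Bump.arch_left {g : H} {a b : ℝ} (h : Bump g a b) {x ε : ℝ} (hx' : x < b)
    (hε : 0 < ε) : ∃ N : ℕ, (g ^ N)⁻¹ x < a + ε := by
  by_contra hc
  push_neg at hc
  set S : Set ℝ := Set.range fun N : ℕ => (g ^ N)⁻¹ x
  have hb : BddBelow S := ⟨a + ε, by rintro _ ⟨N, rfl⟩; exact hc N⟩
  have hne : S.Nonempty := ⟨_, ⟨0, rfl⟩⟩
  set s := sInf S
  have h1 : a + ε ≤ s := le_csInf hne (by rintro _ ⟨N, rfl⟩; exact hc N)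
  have h2 : s ≤ x := by
    have := csInf_le hb ⟨0, rfl⟩
    simpa using this
  have h3 : s < g s := h.pos s (by linarith) (by linarith)
  obtain ⟨_, ⟨N, rfl⟩, h4⟩ := exists_lt_of_csInf_lt hne h3
  have h5 : (g ^ (N + 1))⁻¹ x < s := by
    have : (g ^ (N + 1))⁻¹ x = g⁻¹ ((g ^ N)⁻¹ x) := by
      rw [pow_succ, mul_inv_rev, mulA]
    rw [this, ← g.lt_iff_lt, invR]
    exact h4
  exact absurd (csInf_le hb ⟨N + 1, rfl⟩) (not_le.2 h5)

theorem Bump.arch_right {g : H} {a b : ℝ} (h : Bump g a b) {x ε : ℝ} (hx : a < x)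
    (hε : 0 < ε) : ∃ N : ℕ, b - ε < (g ^ N) x := by
  by_contra hc
  push_neg at hc
  set S : Set ℝ := Set.range fun N : ℕ => (g ^ N) x
  have hb : BddAbove S := ⟨b - ε, by rintro _ ⟨N, rfl⟩; exact hc N⟩
  have hne : S.Nonempty := ⟨_, ⟨0, rfl⟩⟩
  set s := sSup S
  have h1 : s ≤ b - ε := csSup_le hne (by rintro _ ⟨N, rfl⟩; exact hc N)
  have h2 : x ≤ s := by
    have := le_csSup hb ⟨0, rfl⟩
    simpa using this
  have h3 : g⁻¹ s < s := by
    rw [← g.lt_iff_lt, invR]
    exact h.pos s (by linarith) (by linarith)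
  obtain ⟨_, ⟨N, rfl⟩, h4⟩ := exists_lt_of_lt_csSup hne h3
  have h5 : s < (g ^ (N + 1)) x := by
    rw [pow_succ', mulA, ← g⁻¹.lt_iff_lt, invL]
    exact h4
  exact absurd (le_csSup hb ⟨N + 1, rfl⟩) (not_le.2 h5)

end Pool.Agent.H245R3.TF
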