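import Mathlib
import Pool.Agent.H245R3.TF.PL

set_option autoImplicit false

/-! The group given by the two relator presentation and its action on the line. -/

namespace Pool.Agent.H245R3.TF

/-- the doubling map -/
noncomputable def bet : H where
  toFun x := max x (min (2 * x) (x + 1))
  invFun y := min y (max (y / 2) (y - 1))
  left_inv x := by
    dsimp only
    rcases le_total x 0 with h | h
    · rw [min_eq_left (by linarith : 2 * x ≤ x + 1), max_eq_left (by linarith : 2 * x ≤ x),
        min_eq_left]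
      exact le_max_of_le_left (by linarith)
    · rcases le_total x 1 with h1 | h1
      · rw [min_eq_left (by linarith : 2 * x ≤ x + 1), max_eq_right (by linarith : x ≤ 2 * x),
          max_eq_left (by linarith), min_eq_right (by linarith)]
        ring
      · rw [min_eq_right (by linarith : x + 1 ≤ 2 * x), max_eq_right (by linarith : x ≤ x + 1),
          max_eq_right (by linarith), min_eq_right (by linarith)]
        ring
  right_inv y := by
    dsimp only
    rcases le_total y 0 with h | h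
    · rw [min_eq_left (le_max_of_le_left (by linarith) : y ≤ max (y / 2) (y - 1)),
        min_eq_left (by linarith), max_eq_left (by linarith)]
    · rcases le_total y 2 with h1 | h1
      · rw [max_eq_left (by linarith : y - 1 ≤ y / 2), min_eq_right (by linarith : y / 2 ≤ y),
          min_eq_left (by linarith), max_eq_right (by linarith)]
        ring
      · rw [max_eq_right (by linarith : y / 2 ≤ y - 1), min_eq_right (by linarith : y - 1 ≤ y),
          min_eq_right (by linarith), max_eq_right (by linarith)]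
        ring
  map_rel_iff' := by
    have hm : StrictMono fun x : ℝ => max x (min (2 * x) (x + 1)) := by
      intro x y hxy
      simp only
      rw [max_lt_iff]
      constructor
      · exact lt_max_of_lt_left hxy
      · rcases le_total y 0 with h | h
        · apply lt_max_of_lt_left
          exact lt_of_le_of_lt (min_le_left _ _) (by linarith)
        · apply lt_max_of_lt_right
          apply lt_min
          · exact lt_of_le_of_lt (min_le_left _ _) (by linarith)
          · exact lt_of_le_of_lt (min_le_right _ _) (by linarith)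
    intro x y
    exact hm.le_iff_le

theorem bet_apply (x : ℝ) : bet x = max x (min (2 * x) (x + 1)) := rfl

theorem bet_nonpos {x : ℝ} (h : x ≤ 0) : bet x = x := by
  rw [bet_apply, min_eq_left (by linarith), max_eq_left (by linarith)]

theorem bet_mid {x : ℝ} (h : 0 ≤ x) (h1 : x ≤ 1) : bet x = 2 * x := by
  rw [bet_apply, min_eq_left (by linarith), max_eq_right (by linarith)]

theorem bet_ge {x : ℝ} (h1 : 1 ≤ x) : bet x = x + 1 := by
  rw [bet_apply, min_eq_right (by linarith), max_eq_right (by linarith)]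

/-- the translation -/
noncomputable def tau : H := OrderIso.addRight 1

theorem tau_apply (x : ℝ) : tau x = x + 1 := rfl

theorem tau_inv (x : ℝ) : tau⁻¹ x = x - 1 := by
  have : tau (x - 1) = x := by rw [tau_apply]; ring
  conv_lhs => rw [← this]
  rw [invL]

theorem tau_zpow (k : ℤ) (x : ℝ) : (tau ^ k) x = x + k := by
  induction k using Int.induction_on generalizing x with
  | zero => simp [oneA]
  | succ n ih =>
    rw [zpow_add_one, mulA, tau_apply, ih]
    push_cast
    ring
  | pred n ih =>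
    rw [zpow_sub_one, mulA, tau_inv, ih]
    push_cast
    ring

theorem tau_mem : tau ∈ PLG := by
  intro x
  refine ⟨⟨0, 1, one_pos, fun y _ _ => ?_⟩, ⟨0, 1, one_pos, fun y _ _ => ?_⟩⟩ <;>
  · rw [tau_apply, tau_apply]
    simp only [zpow_zero, one_mul]
    ring

theorem bet_mem : bet ∈ PLG := by
  intro x
  constructor
  · rcases lt_or_ge x 0 with h | h
    · refine ⟨0, -x, by linarith, fun y hy hy' => ?_⟩
      rw [bet_nonpos h.le, bet_nonpos (by linarith)]
      simp
    · rcases lt_or_ge x 1 with h1 | h1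
      · refine ⟨1, 1 - x, by linarith, fun y hy hy' => ?_⟩
        rw [bet_mid h h1.le, bet_mid (by linarith) (by linarith)]
        rw [zpow_one]
        ring
      · refine ⟨0, 1, one_pos, fun y hy hy' => ?_⟩
        rw [bet_ge h1, bet_ge (by linarith)]
        simp only [zpow_zero, one_mul]
        ring
  · rcases le_or_gt x 0 with h | h
    · refine ⟨0, 1, by linarith, fun y hy hy' => ?_⟩
      rw [bet_nonpos h, bet_nonpos (by linarith)]
      simp
    · rcases le_or_gt x 1 with h1 | h1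
      · refine ⟨1, x, by linarith, fun y hy hy' => ?_⟩
        rw [bet_mid h.le h1, bet_mid (by linarith) (by linarith)]
        rw [zpow_one]
        ring
      · refine ⟨0, x - 1, by linarith, fun y hy hy' => ?_⟩
        rw [bet_ge h1.le, bet_ge (by linarith)]
        simp only [zpow_zero, one_mul]
        ring

/-- maps with disjoint supports commute -/
theorem comm_of_half {f g : H} {c : ℝ} (hf : ∀ x, c ≤ x → f x = x) (hg : ∀ x, x ≤ c → g x = x) :
    f * g = g * f := by
  ext x
  rw [mulA, mulA]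
  rcases le_total x c with h | h
  · have : f x ≤ c := by
      rw [← hf c le_rfl]
      exact f.le_iff_le.2 h
    rw [hg x h, hg _ this]
  · have : c ≤ g x := by
      rw [← hg c le_rfl]
      exact g.le_iff_le.2 h
    rw [hf x h, hf _ this]

/-- the relators -/
def rels : Set (FreeGroup Bool) :=
  {(FreeGroup.of false * (FreeGroup.of true)⁻¹) *
                ((FreeGroup.of false)⁻¹ * FreeGroup.of true * FreeGroup.of false) *
                (FreeGroup.of false * (FreeGroup.of true)⁻¹)⁻¹ *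
                ((FreeGroup.of false)⁻¹ * FreeGroup.of true * FreeGroup.of false)⁻¹,
              (FreeGroup.of false * (FreeGroup.of true)⁻¹) *
                ((FreeGroup.of false)⁻¹ * (FreeGroup.of false)⁻¹ * FreeGroup.of true *
                  FreeGroup.of false * FreeGroup.of false) *
                (FreeGroup.of false * (FreeGroup.of true)⁻¹)⁻¹ *
                ((FreeGroup.of false)⁻¹ * (FreeGroup.of false)⁻¹ * FreeGroup.of true *
                  FreeGroup.of false * FreeGroup.of false)⁻¹}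

/-- the group -/
abbrev G := PresentedGroup rels

def ga : G := PresentedGroup.of false
def gb : G := PresentedGroup.of true

noncomputable def gen : Bool → H := fun b => if b then bet⁻¹ else tau⁻¹

theorem comm_elt {Γ : Type*} [Group Γ] {x y : Γ} (h : x * y = y * x) : x * y * x⁻¹ * y⁻¹ = 1 := by
  rw [h]; group

theorem gen_rel : ∀ r ∈ rels, FreeGroup.lift gen r = 1 := by
  have h1 : ∀ x : ℝ, 1 ≤ x → (tau⁻¹ * (bet⁻¹)⁻¹) x = x := by
    intro x hx
    rw [mulA, inv_inv, bet_ge hx, tau_inv]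
    ring
  have h2 : ∀ k : ℕ, ∀ x : ℝ, x ≤ k → (tau ^ k * bet⁻¹ * (tau ^ k)⁻¹) x = x := by
    intro k x hx
    have e : tau ^ k = tau ^ (k : ℤ) := (zpow_natCast tau k).symm
    have this : bet (x + ((-(k : ℤ) : ℤ) : ℝ)) = x + ((-(k : ℤ) : ℤ) : ℝ) := by
      apply bet_nonpos
      push_cast
      linarith
    have this2 : bet⁻¹ (x + ((-(k : ℤ) : ℤ) : ℝ)) = x + ((-(k : ℤ) : ℤ) : ℝ) := by
      conv_lhs => rw [← this]
      rw [invL]
    rw [mulA, mulA, e, ← zpow_neg, tau_zpow (-(k : ℤ)) x, this2, tau_zpow]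
    push_cast
    ring
  rintro r (rfl | rfl)
  · have e : FreeGroup.lift gen (FreeGroup.of false) = tau⁻¹ := by simp [gen]
    have e' : FreeGroup.lift gen (FreeGroup.of true) = bet⁻¹ := by simp [gen]
    simp only [map_mul, map_inv, e, e']
    apply comm_elt
    apply comm_of_half h1
    intro x hx
    have := h2 1 x (by simpa using hx)
    simpa using this
  · have e : FreeGroup.lift gen (FreeGroup.of false) = tau⁻¹ := by simp [gen]
    have e' : FreeGroup.lift gen (FreeGroup.of true) = bet⁻¹ := by simp [gen]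
    simp only [map_mul, map_inv, e, e']
    apply comm_elt
    apply comm_of_half h1
    intro x hx
    have := h2 2 x (by push_cast; linarith)
    simp only [pow_two, mul_inv_rev, mulA] at this
    simp only [inv_inv, mulA]
    exact this

/-- the action -/
noncomputable def rho : G →* H := PresentedGroup.toGroup gen_rel

theorem rho_a : rho ga = tau⁻¹ := by
  unfold rho ga
  rw [PresentedGroup.toGroup.of]
  simp [gen]

theorem rho_b : rho gb = bet⁻¹ := by
  unfold rho gb
  rw [PresentedGroup.toGroup.of]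
  simp [gen]

/-- the conjugates of the second generator -/
def X (n : ℤ) : G := ga ^ (-n) * gb * ga ^ n

theorem X_zero : X 0 = gb := by simp [X]

theorem X_shift (n k : ℤ) : ga ^ (-k) * X n * ga ^ k = X (n + k) := by
  unfold X
  rw [show -(n + k) = -k + -n by ring, zpow_add, zpow_add]
  group

theorem rel1 : gb⁻¹ * X 1 * gb = X 2 := by
  have h : (PresentedGroup.mk rels) _ = 1 :=
    PresentedGroup.one_of_mem (rels := rels) (Set.mem_insert _ _)
  simp only [map_mul, map_inv] at h
  change (ga * gb⁻¹) * (ga⁻¹ * gb * ga) * (ga * gb⁻¹)⁻¹ * (ga⁻¹ * gb * ga)⁻¹ = 1 at h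
  rw [mul_inv_eq_one, mul_inv_eq_iff_eq_mul] at h
  have e : X 1 = ga⁻¹ * gb * ga := by simp [X]
  have e2 : X 2 = ga⁻¹ * (ga⁻¹ * gb * ga) * ga := by
    unfold X
    rw [show (2 : ℤ) = 1 + 1 by norm_num, neg_add, zpow_add, zpow_add]
    group
  rw [e, e2]
  have : gb⁻¹ * (ga⁻¹ * gb * ga) = ga⁻¹ * ((ga * gb⁻¹) * (ga⁻¹ * gb * ga)) := by group
  rw [this, h]
  group

theorem rel2 : gb⁻¹ * X 2 * gb = X 3 := by
  have h : (PresentedGroup.mk rels) _ = 1 :=
    PresentedGroup.one_of_mem (rels := rels) (Set.mem_insert_of_mem _ rfl)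
  simp only [map_mul, map_inv] at h
  change (ga * gb⁻¹) * (ga⁻¹ * ga⁻¹ * gb * ga * ga) * (ga * gb⁻¹)⁻¹ *
    (ga⁻¹ * ga⁻¹ * gb * ga * ga)⁻¹ = 1 at h
  rw [mul_inv_eq_one, mul_inv_eq_iff_eq_mul] at h
  have e : X 2 = ga⁻¹ * ga⁻¹ * gb * ga * ga := by
    unfold X
    rw [show (2 : ℤ) = 1 + 1 by norm_num, neg_add, zpow_add, zpow_add]
    group
  have e2 : X 3 = ga⁻¹ * (ga⁻¹ * ga⁻¹ * gb * ga * ga) * ga := by
    unfold X
    rw [show (3 : ℤ) = 1 + (1 + 1) by norm_num, neg_add, neg_add, zpow_add, zpow_add, zpow_add,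
      zpow_add]
    group
  rw [e, e2]
  have : gb⁻¹ * (ga⁻¹ * ga⁻¹ * gb * ga * ga) =
    ga⁻¹ * ((ga * gb⁻¹) * (ga⁻¹ * ga⁻¹ * gb * ga * ga)) := by group
  rw [this, h]
  group

theorem rel_nat (j : ℕ) : gb⁻¹ * X (j + 1) * gb = X (j + 2) ∧
    gb⁻¹ * X (j + 2) * gb = X (j + 3) := by
  induction j with
  | zero =>
    constructor
    · simpa using rel1
    · simpa using rel2
  | succ j ih =>
    obtain ⟨ih1, ih2⟩ := ih
    push_cast
    have e1 : (j : ℤ) + 1 + 1 = j + 2 := by ring
    have e2 : (j : ℤ) + 1 + 2 = j + 3 := by ring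
    have e3 : (j : ℤ) + 1 + 3 = j + 4 := by ring
    rw [e1, e2, e3]
    refine ⟨ih2, ?_⟩
    -- X (j+3) = (X 1)⁻¹ X (j+2) X 1
    have h1 : (X 1)⁻¹ * X (j + 2) * X 1 = X (j + 3) := by
      have := congrArg (fun g => ga ^ (-1 : ℤ) * g * ga ^ (1 : ℤ)) ih1
      rw [X_shift] at this
      rw [show (j : ℤ) + 2 + 1 = j + 3 by ring] at this
      rw [← this]
      have e5 : X 1 = ga ^ (-1 : ℤ) * gb * ga ^ (1 : ℤ) := rfl
      have e4 : X (j + 2) = ga ^ (-1 : ℤ) * X (j + 1) * ga ^ (1 : ℤ) := by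
        rw [X_shift]
        ring_nf
      rw [e4, e5]
      group
    have h2 : (X 2)⁻¹ * X (j + 3) * X 2 = X (j + 4) := by
      have := congrArg (fun g => ga ^ (-1 : ℤ) * g * ga ^ (1 : ℤ)) h1
      rw [X_shift] at this
      rw [show (j : ℤ) + 3 + 1 = j + 4 by ring] at this
      rw [← this]
      have e5 : X 2 = ga ^ (-1 : ℤ) * X 1 * ga ^ (1 : ℤ) := by
        rw [X_shift]; rfl
      have e4 : X (j + 3) = ga ^ (-1 : ℤ) * X (j + 2) * ga ^ (1 : ℤ) := by
        rw [X_shift]
        ring_nf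
      rw [e4, e5]
      group
    calc gb⁻¹ * X (j + 3) * gb
        = (gb⁻¹ * X 1 * gb)⁻¹ * (gb⁻¹ * X (j + 2) * gb) * (gb⁻¹ * X 1 * gb) := by
          rw [← h1]; group
      _ = (X 2)⁻¹ * X (j + 3) * X 2 := by rw [rel1, ih2]
      _ = X (j + 4) := h2

theorem X_rel {i j : ℤ} (h : i < j) : X j * X i = X i * X (j + 1) := by
  obtain ⟨k, hk⟩ : ∃ k : ℕ, j = i + (k + 1) := by
    refine ⟨(j - i - 1).toNat, ?_⟩
    rw [Int.toNat_of_nonneg (by omega)]
    ring
  have h1 := (rel_nat k).1
  have := congrArg (fun g => ga ^ (-i : ℤ) * g * ga ^ (i : ℤ)) h1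
  rw [X_shift] at this
  have e1 : X i = ga ^ (-i : ℤ) * gb * ga ^ (i : ℤ) := rfl
  have e2 : X j = ga ^ (-i : ℤ) * X (k + 1) * ga ^ (i : ℤ) := by
    rw [X_shift, hk]
    ring_nf
  have e3 : X (j + 1) = X ((k : ℤ) + 2 + i) := by
    rw [hk]
    ring_nf
  rw [e3, ← this, e1, e2]
  group

/-- the positive monoid -/
def Pos : Submonoid G := Submonoid.closure (Set.range X)

theorem X_pos (n : ℤ) : X n ∈ Pos := Submonoid.subset_closure ⟨n, rfl⟩

/-- completion of a letter against a positive element -/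
theorem ore (P : G) (hP : P ∈ Pos) : ∀ Q : G, (Q = 1 ∨ ∃ n, Q = X n) →
    ∃ q p : G, (q = 1 ∨ ∃ n, q = X n) ∧ p ∈ Pos ∧ P * q = Q * p := by
  induction hP using Submonoid.closure_induction with
  | mem x hx =>
    obtain ⟨m, rfl⟩ := hx
    rintro Q (rfl | ⟨n, rfl⟩)
    · exact ⟨1, X m, Or.inl rfl, X_pos m, by simp⟩
    · rcases lt_trichotomy m n with h | h | h
      · exact ⟨X (n + 1), X m, Or.inr ⟨_, rfl⟩, X_pos _, (X_rel h).symm⟩
      · subst h
        exact ⟨1, 1, Or.inl rfl, one_mem _, rfl⟩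
      · exact ⟨X n, X (m + 1), Or.inr ⟨_, rfl⟩, X_pos _, X_rel h⟩
  | one =>
    intro Q hQ
    exact ⟨Q, 1, hQ, one_mem _, by simp⟩
  | mul x y _ _ hx hy =>
    intro Q hQ
    obtain ⟨q, p, hq, hp, e⟩ := hx Q hQ
    obtain ⟨q', p', hq', hp', e'⟩ := hy q hq
    refine ⟨q', p * p', hq', mul_mem hp hp', ?_⟩
    rw [mul_assoc, e', ← mul_assoc, e, mul_assoc]

/-- every element is a fraction -/
def Fr (g : G) : Prop := ∃ (k : ℤ) (P Q : G), P ∈ Pos ∧ Q ∈ Pos ∧ g = ga ^ k * P * Q⁻¹

theorem Fr_a {g : G} (h : Fr g) (j : ℤ) : Fr (ga ^ j * g) := by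
  obtain ⟨k, P, Q, hP, hQ, rfl⟩ := h
  exact ⟨j + k, P, Q, hP, hQ, by rw [zpow_add]; group⟩

theorem X_conj (k : ℤ) : gb * ga ^ k = ga ^ k * X k := by
  unfold X
  group

theorem Fr_b {g : G} (h : Fr g) : Fr (gb * g) := by
  obtain ⟨k, P, Q, hP, hQ, rfl⟩ := h
  refine ⟨k, X k * P, Q, mul_mem (X_pos _) hP, hQ, ?_⟩
  rw [← mul_assoc, ← mul_assoc, X_conj]
  group

theorem Fr_b' {g : G} (h : Fr g) : Fr (gb⁻¹ * g) := by
  obtain ⟨k, P, Q, hP, hQ, rfl⟩ := h
  obtain ⟨q, p, hq, hp, e⟩ := ore P hP (X k) (Or.inr ⟨_, rfl⟩)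
  have hq' : q ∈ Pos := by
    rcases hq with rfl | ⟨n, rfl⟩
    · exact one_mem _
    · exact X_pos _
  refine ⟨k, p, Q * q, hp, mul_mem hQ hq', ?_⟩
  have e1 : gb⁻¹ * ga ^ k = ga ^ k * (X k)⁻¹ := by
    unfold X
    group
  have e2 : (X k)⁻¹ * P = p * q⁻¹ := by
    rw [inv_mul_eq_iff_eq_mul, ← mul_assoc, ← e]
    group
  calc gb⁻¹ * (ga ^ k * P * Q⁻¹) = (gb⁻¹ * ga ^ k) * P * Q⁻¹ := by group
    _ = ga ^ k * ((X k)⁻¹ * P) * Q⁻¹ := by rw [e1]; group
    _ = ga ^ k * p * (Q * q)⁻¹ := by rw [e2]; group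

theorem Fr_all (g : G) : Fr g := by
  obtain ⟨w, rfl⟩ := PresentedGroup.mk_surjective rels g
  have key : ∀ w : FreeGroup Bool, ∀ g : G, Fr g → Fr (PresentedGroup.mk rels w * g) := by
    intro w
    induction w using FreeGroup.induction_on with
    | C1 =>
      intro g hg
      simpa using hg
    | of b =>
      intro g hg
      cases b with
      | false =>
        have := Fr_a hg 1
        rw [zpow_one] at this
        exact this
      | true => exact Fr_b hg
    | inv_of b _ =>
      intro g hg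
      cases b with
      | false =>
        have := Fr_a hg (-1)
        rw [zpow_neg, zpow_one] at this
        exact this
      | true => exact Fr_b' hg
    | mul x y hx hy =>
      intro g hg
      rw [map_mul, mul_assoc]
      exact hx _ (hy _ hg)
  have := key w 1 ⟨0, 1, 1, one_mem _, one_mem _, by simp⟩
  rwa [mul_one] at this

/-- normal forms -/
def nf : ℤ → List ℕ → G
  | _, [] => 1
  | i, m :: L => X i ^ m * nf (i + 1) L

theorem nf_pad (L : List ℕ) (i : ℤ) (k : ℕ) : nf (i - k) (List.replicate k 0 ++ L) = nf i L := by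
  induction k generalizing i with
  | zero => simp
  | succ k ih =>
    rw [List.replicate_succ, List.cons_append, nf, pow_zero, one_mul]
    have : i - ((k + 1 : ℕ) : ℤ) + 1 = i - k := by push_cast; ring
    rw [this, ih]

theorem nf_one (i n : ℤ) (h : i ≤ n) : ∃ L, X n = nf i L := by
  obtain ⟨k, hk⟩ : ∃ k : ℕ, n = i + k := ⟨(n - i).toNat, by omega⟩
  refine ⟨List.replicate k 0 ++ [1], ?_⟩
  have := nf_pad [1] n k
  rw [show n - (k : ℤ) = i by omega] at this
  rw [this]
  simp [nf]

theorem X_pow_comm (i n : ℤ) (h : i < n) (m : ℕ) : X n * X i ^ m = X i ^ m * X (n + m) := by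
  induction m with
  | zero => simp
  | succ m ih =>
    rw [pow_succ, ← mul_assoc, ih, mul_assoc, X_rel (by omega : i < n + m), ← mul_assoc]
    push_cast
    rw [add_assoc]

theorem nf_insert (L : List ℕ) : ∀ (i n : ℤ), i ≤ n → ∃ L', X n * nf i L = nf i L' := by
  induction L with
  | nil =>
    intro i n h
    obtain ⟨L, hL⟩ := nf_one i n h
    exact ⟨L, by simp [nf, ← hL]⟩
  | cons m L ih =>
    intro i n h
    rcases eq_or_lt_of_le h with h1 | h1
    · subst h1
      refine ⟨(m + 1) :: L, ?_⟩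
      simp only [nf]
      rw [pow_succ', mul_assoc]
    · obtain ⟨L', hL'⟩ := ih (i + 1) (n + m) (by omega)
      refine ⟨m :: L', ?_⟩
      simp only [nf]
      rw [← mul_assoc, X_pow_comm i n h1, mul_assoc, hL']

theorem nf_all (P : G) (hP : P ∈ Pos) : ∃ i L, P = nf i L := by
  suffices h : ∀ i L, ∃ i' L', P * nf i L = nf i' L' by
    obtain ⟨i, L, h⟩ := h 0 []
    exact ⟨i, L, by simpa [nf] using h⟩
  induction hP using Submonoid.closure_induction with
  | mem x hx =>
    obtain ⟨n, rfl⟩ := hx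
    intro i L
    rcases le_total i n with h | h
    · obtain ⟨L', h⟩ := nf_insert L i n h
      exact ⟨i, L', h⟩
    · obtain ⟨k, hk⟩ : ∃ k : ℕ, n = i - k := ⟨(i - n).toNat, by omega⟩
      rw [← nf_pad L i k, ← hk]
      obtain ⟨L', h⟩ := nf_insert (List.replicate k 0 ++ L) n n le_rfl
      exact ⟨n, L', h⟩
  | one =>
    intro i L
    exact ⟨i, L, by simp⟩
  | mul x y _ _ hx hy =>
    intro i L
    obtain ⟨i', L', h⟩ := hy i L
    obtain ⟨i'', L'', h'⟩ := hx i' L'
    exact ⟨i'', L'', by rw [mul_assoc, h, h']⟩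

theorem rho_X (n : ℤ) : rho (X n) = tau ^ n * bet⁻¹ * (tau ^ n)⁻¹ := by
  unfold X
  rw [map_mul, map_mul, map_zpow, map_zpow, rho_a, rho_b, inv_zpow, inv_zpow, zpow_neg, inv_inv]

theorem rho_X_fix (n : ℤ) (x : ℝ) (h : x ≤ n) : rho (X n) x = x := by
  have this : bet (x + ((-n : ℤ) : ℝ)) = x + ((-n : ℤ) : ℝ) := by
    apply bet_nonpos
    push_cast
    linarith
  have this2 : bet⁻¹ (x + ((-n : ℤ) : ℝ)) = x + ((-n : ℤ) : ℝ) := by
    conv_lhs => rw [← this]
    rw [invL]
  rw [rho_X, mulA, mulA, ← zpow_neg, tau_zpow (-n) x, this2, tau_zpow]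
  push_cast
  ring

theorem rho_X_half (n : ℤ) (x : ℝ) (h0 : 0 ≤ x) (h : x ≤ 1) : rho (X n) (n + x) = n + x / 2 := by
  have this : bet (x / 2) = n + x + ((-n : ℤ) : ℝ) := by
    rw [bet_mid (by linarith) (by linarith)]
    push_cast
    ring
  rw [rho_X, mulA, mulA, ← zpow_neg, tau_zpow (-n), ← this, invL, tau_zpow]
  ring

theorem rho_X_pow (n : ℤ) (m : ℕ) : rho (X n) ((n : ℝ) + (1 / 2) ^ m) = n + (1 / 2) ^ (m + 1) := by
  rw [rho_X_half n _ (by positivity) (pow_le_one₀ (by norm_num) (by norm_num))]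
  rw [pow_succ]
  ring

theorem rho_X_pow' (n : ℤ) (m : ℕ) : rho (X n ^ m) ((n : ℝ) + 1) = n + (1 / 2) ^ m := by
  induction m with
  | zero => simp [oneA]
  | succ m ih =>
    rw [pow_succ', map_mul, mulA, ih, rho_X_pow]

theorem nf_fix (L : List ℕ) : ∀ (i : ℤ) (x : ℝ), x ≤ i → rho (nf i L) x = x := by
  induction L with
  | nil => intro i x _; simp [nf, oneA]
  | cons m L ih =>
    intro i x hx
    simp only [nf]
    rw [map_mul, mulA, ih (i + 1) x (by push_cast; linarith)]
    induction m with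
    | zero => simp [oneA]
    | succ m ih' => rw [pow_succ, map_mul, mulA, rho_X_fix i x hx, ih']

theorem nf_ev (m : ℕ) (L : List ℕ) (i : ℤ) : rho (nf i (m :: L)) ((i : ℝ) + 1) = i + (1 / 2) ^ m := by
  simp only [nf]
  rw [map_mul, mulA, nf_fix L (i + 1) _ (by push_cast; exact le_rfl), rho_X_pow']

theorem half_inj {m m' : ℕ} {i : ℝ} (h : i + (1 / 2) ^ m = i + (1 / 2) ^ m') : m = m' := by
  have h1 : ((1 : ℝ) / 2) ^ m = (1 / 2) ^ m' := by linarith
  exact pow_right_injective₀ (by norm_num) (by norm_num) h1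

theorem nf_one_inj (L : List ℕ) : ∀ i : ℤ, rho (nf i L) = 1 → nf i L = 1 := by
  induction L with
  | nil => intro i _; rfl
  | cons m L ih =>
    intro i h
    have h1 := nf_ev m L i
    rw [h, oneA] at h1
    have h2 : m = 0 := by
      have : (i : ℝ) + (1 / 2) ^ m = i + (1 / 2) ^ 0 := by rw [← h1]; simp
      exact half_inj this
    subst h2
    simp only [nf, pow_zero, one_mul] at h ⊢
    exact ih _ h

theorem nf_inj (L : List ℕ) : ∀ (L' : List ℕ) (i : ℤ), rho (nf i L) = rho (nf i L') →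
    nf i L = nf i L' := by
  induction L with
  | nil =>
    intro L' i h
    have : rho (nf i L') = 1 := by rw [← h]; simp [nf]
    rw [nf_one_inj L' i this]
    rfl
  | cons m L ih =>
    intro L' i h
    cases L' with
    | nil =>
      have : rho (nf i (m :: L)) = 1 := by rw [h]; simp [nf]
      rw [nf_one_inj _ i this]
      rfl
    | cons m' L' =>
      have h1 := nf_ev m L i
      have h2 := nf_ev m' L' i
      rw [h, h2] at h1
      have h3 := half_inj h1
      subst h3
      simp only [nf, map_mul, mul_right_inj] at h ⊢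
      exact ih _ _ h

theorem pos_inj {P Q : G} (hP : P ∈ Pos) (hQ : Q ∈ Pos) (h : rho P = rho Q) : P = Q := by
  obtain ⟨i, L, rfl⟩ := nf_all P hP
  obtain ⟨j, L', rfl⟩ := nf_all Q hQ
  rcases le_total i j with hij | hij
  · obtain ⟨k, hk⟩ : ∃ k : ℕ, i = j - k := ⟨(j - i).toNat, by omega⟩
    rw [← nf_pad L' j k, ← hk] at h ⊢
    exact nf_inj _ _ _ h
  · obtain ⟨k, hk⟩ : ∃ k : ℕ, j = i - k := ⟨(i - j).toNat, by omega⟩
    rw [← nf_pad L i k, ← hk] at h ⊢
    exact nf_inj _ _ _ h

theorem pos_left {P : G} (hP : P ∈ Pos) : ∃ M : ℝ, ∀ x ≤ M, rho P x = x := by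
  obtain ⟨i, L, rfl⟩ := nf_all P hP
  exact ⟨i, fun x hx => nf_fix L i x hx⟩

theorem rho_inj : Function.Injective rho := by
  rw [injective_iff_map_eq_one]
  intro g hg
  obtain ⟨k, P, Q, hP, hQ, rfl⟩ := Fr_all g
  have h1 : rho (ga ^ k) * rho P = rho Q := by
    rw [map_mul, map_inv, mul_inv_eq_one, map_mul] at hg
    exact hg
  have hk : k = 0 := by
    obtain ⟨M, hM⟩ := pos_left hP
    obtain ⟨M', hM'⟩ := pos_left hQ
    have h2 := DFunLike.congr_fun h1 (min M M')
    rw [mulA, hM _ (min_le_left _ _), hM' _ (min_le_right _ _), map_zpow, rho_a, inv_zpow,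
      ← zpow_neg, tau_zpow] at h2
    have h3 : ((-k : ℤ) : ℝ) = 0 := by linarith
    have h4 : -k = 0 := by exact_mod_cast h3
    omega
  subst hk
  rw [zpow_zero, map_one, one_mul] at h1
  rw [pos_inj hP hQ h1]
  group

theorem rho_mem (g : G) : rho g ∈ PLG := by
  obtain ⟨w, rfl⟩ := PresentedGroup.mk_surjective rels g
  induction w using FreeGroup.induction_on with
  | C1 => simp [one_mem]
  | of b =>
    cases b with
    | false =>
      change rho ga ∈ PLG
      rw [rho_a]
      exact inv_mem tau_mem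
    | true =>
      change rho gb ∈ PLG
      rw [rho_b]
      exact inv_mem bet_mem
  | inv_of b h =>
    rw [map_inv, map_inv]
    exact inv_mem h
  | mul x y hx hy =>
    rw [map_mul, map_mul]
    exact mul_mem hx hy

end Pool.Agent.H245R3.TF
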