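import Mathlib
import Pool.Agent.H245R3.TF.Gen

set_option autoImplicit false

/-! Four special elements of the group and their bumps. -/

namespace Pool.Agent.H245R3.TF

section words
variable {Γ : Type*} [Group Γ]

def cD (a b : Γ) : Γ := (a ^ 3)⁻¹ * b * a ^ 3 * b⁻¹
def cF (a b : Γ) : Γ := (a⁻¹ * b⁻¹ * a) ^ 3 * b⁻¹
def cT (a b : Γ) : Γ := (a ^ 5)⁻¹ * (cF a b)⁻¹ * a ^ 5 * cF a b
def cY (a b : Γ) : Γ := a⁻¹ * cD a b * a
def cL (a b : Γ) : Γ := a ^ 4 * cD a b * (a ^ 4)⁻¹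
def cR (a b : Γ) : Γ := (a ^ 6)⁻¹ * cD a b * a ^ 6

variable {Γ' : Type*} [Group Γ'] (φ : Γ →* Γ') (a b : Γ)

theorem map_cD : φ (cD a b) = cD (φ a) (φ b) := by simp [cD]
theorem map_cF : φ (cF a b) = cF (φ a) (φ b) := by simp [cF]
theorem map_cT : φ (cT a b) = cT (φ a) (φ b) := by simp [cT, map_cF]
theorem map_cY : φ (cY a b) = cY (φ a) (φ b) := by simp [cY, map_cD]
theorem map_cL : φ (cL a b) = cL (φ a) (φ b) := by simp [cL, map_cD]
theorem map_cR : φ (cR a b) = cR (φ a) (φ b) := by simp [cR, map_cD]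

end words

theorem tau_pow (c : ℕ) (x : ℝ) : (tau ^ c) x = x + c := by
  have := tau_zpow c x
  rw [zpow_natCast] at this
  rw [this]
  push_cast
  rfl

theorem tau_pow_inv (c : ℕ) (x : ℝ) : (tau ^ c)⁻¹ x = x - c := by
  rw [← (tau ^ c).apply_eq_iff_eq, invR, tau_pow]
  ring

/-- commutators of a map with a long translation -/
theorem comm_bump {f : H} {m : ℝ} {c : ℕ} (hc : 1 ≤ c) (h0 : ∀ x, x ≤ 0 → f x = x)
    (h1 : ∀ x, 1 ≤ x → f x = x + m) (hp : ∀ x, 0 < x → x < f x)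
    (hl : ∀ x, x < 1 → f x < x + m) :
    Bump (tau ^ c * f⁻¹ * (tau ^ c)⁻¹ * f) 0 (c + 1) := by
  have hc' : (1 : ℝ) ≤ c := by exact_mod_cast hc
  have e : ∀ x, (tau ^ c * f⁻¹ * (tau ^ c)⁻¹ * f) x = f⁻¹ (f x - c) + c := by
    intro x
    rw [mulA, mulA, mulA, tau_pow, tau_pow_inv]
  refine ⟨by linarith, fun x hx => ?_, fun x hx => ?_, fun x hx hx' => ?_⟩
  · rw [e, h0 x hx]
    have : f (x - c) = x - c := h0 _ (by linarith)
    conv_lhs => rw [← this]
    rw [invL]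
    ring
  · rw [e, h1 x (by linarith)]
    have : f (x - c) = x + m - c := by
      rw [h1 _ (by linarith)]
      ring
    rw [← this, invL]
    ring
  · rw [e]
    have : x - c < f⁻¹ (f x - c) := by
      rw [← f.lt_iff_lt, invR]
      rcases le_or_gt 1 x with h | h
      · rw [h1 x h]
        have := hl (x - c) (by linarith)
        linarith
      · rw [h0 (x - c) (by linarith)]
        have := hp x hx
        linarith
    linarith

theorem comm_slope {f : H} {c : ℕ} (hc : 1 ≤ c) (h0 : ∀ x, x ≤ 0 → f x = x) {k : ℤ}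
    (hk : RL f 0 k) : RL (tau ^ c * f⁻¹ * (tau ^ c)⁻¹ * f) 0 k := by
  have hc' : (1 : ℝ) ≤ c := by exact_mod_cast hc
  have hf1 : 0 < f⁻¹ 1 := by
    rw [← f.lt_iff_lt, invR, h0 0 le_rfl]
    norm_num
  refine RL.congr hf1 ?_ hk
  intro y hy hy'
  rw [zero_add] at hy'
  have h2 : f y < 1 := by
    rw [← f.lt_iff_lt, invR] at hy'
    exact hy'
  rw [mulA, mulA, mulA, tau_pow, tau_pow_inv]
  have : f (f y - c) = f y - c := h0 _ (by linarith)
  have h3 : f⁻¹ (f y - c) = f y - c := by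
    conv_lhs => rw [← this]
    rw [invL]
  rw [h3]
  ring

/-- the concrete maps -/
noncomputable def hD : H := cD tau⁻¹ bet⁻¹
noncomputable def hF : H := cF tau⁻¹ bet⁻¹
noncomputable def hT : H := cT tau⁻¹ bet⁻¹
noncomputable def hY : H := cY tau⁻¹ bet⁻¹
noncomputable def hL : H := cL tau⁻¹ bet⁻¹
noncomputable def hR : H := cR tau⁻¹ bet⁻¹

theorem bet_gt {x : ℝ} (h : 0 < x) : x < bet x := by
  rcases le_total x 1 with h1 | h1
  · rw [bet_mid h.le h1]; linarith
  · rw [bet_ge h1]; linarith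

theorem bet_lt {x : ℝ} (h : x < 1) : bet x < x + 1 := by
  rcases le_total x 0 with h1 | h1
  · rw [bet_nonpos h1]; linarith
  · rw [bet_mid h1 h.le]; linarith

theorem bet_lo (x : ℝ) : x ≤ bet x := by
  rcases le_or_gt x 0 with h | h
  · rw [bet_nonpos h]
  · exact (bet_gt h).le

theorem bet_up (x : ℝ) : bet x ≤ x + 1 := by
  rcases lt_or_ge x 1 with h | h
  · exact (bet_lt h).le
  · rw [bet_ge h]

theorem hD_eq : hD = tau ^ 3 * bet⁻¹ * (tau ^ 3)⁻¹ * bet := by
  unfold hD cD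
  simp only [inv_pow, inv_inv]

theorem hD_bump : Bump hD 0 4 := by
  have := comm_bump (f := bet) (m := 1) (c := 3) (by norm_num) (fun x hx => bet_nonpos hx)
    (fun x hx => bet_ge hx) (fun x hx => bet_gt hx) (fun x hx => bet_lt hx)
  rw [← hD_eq] at this
  norm_num at this
  exact this

theorem bet_RL : RL bet 0 1 := by
  refine ⟨1, one_pos, fun y hy hy' => ?_⟩
  rw [bet_mid le_rfl zero_le_one, bet_mid hy (by linarith)]
  rw [zpow_one]
  ring

theorem hD_slope : RL hD 0 1 := by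
  rw [hD_eq]
  exact comm_slope (by norm_num) (fun x hx => bet_nonpos hx) bet_RL

/-- the shifted doubling map -/
noncomputable def bs : H := tau * bet * tau⁻¹

theorem bs_apply (x : ℝ) : bs x = bet (x - 1) + 1 := by
  unfold bs
  rw [mulA, mulA, tau_inv, tau_apply]

theorem hF_eq : hF = bs ^ 3 * bet := by
  unfold hF cF bs
  simp only [inv_inv]

theorem hF_apply (x : ℝ) : hF x = bs (bs (bs (bet x))) := by
  rw [hF_eq, pow_succ, pow_two, mulA, mulA, mulA]

theorem bs_le {x : ℝ} (h : x ≤ 1) : bs x = x := by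
  rw [bs_apply, bet_nonpos (by linarith)]
  ring

theorem bs_ge {x : ℝ} (h : 2 ≤ x) : bs x = x + 1 := by
  rw [bs_apply, bet_ge (by linarith)]
  ring

theorem bs_lo (x : ℝ) : x ≤ bs x := by
  rw [bs_apply]
  have := bet_lo (x - 1)
  linarith

theorem bs_up (x : ℝ) : bs x ≤ x + 1 := by
  rw [bs_apply]
  have := bet_up (x - 1)
  linarith

theorem hF_0 {x : ℝ} (h : x ≤ 0) : hF x = x := by
  have h1 : bs x = x := bs_le (by linarith)
  rw [hF_apply, bet_nonpos h, h1, h1, h1]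

theorem hF_1 {x : ℝ} (h : 1 ≤ x) : hF x = x + 4 := by
  have h1 : bs (x + 1) = x + 2 := by rw [bs_ge (by linarith)]; ring
  have h2 : bs (x + 2) = x + 3 := by rw [bs_ge (by linarith)]; ring
  have h3 : bs (x + 3) = x + 4 := by rw [bs_ge (by linarith)]; ring
  rw [hF_apply, bet_ge h, h1, h2, h3]

theorem hF_p {x : ℝ} (h : 0 < x) : x < hF x := by
  rw [hF_apply]
  have h1 := bet_gt h
  have h2 := bs_lo (bet x)
  have h3 := bs_lo (bs (bet x))
  have h4 := bs_lo (bs (bs (bet x)))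
  linarith

theorem hF_l {x : ℝ} (h : x < 1) : hF x < x + 4 := by
  rw [hF_apply]
  have h1 := bet_lt h
  have h2 := bs_up (bet x)
  have h3 := bs_up (bs (bet x))
  have h4 := bs_up (bs (bs (bet x)))
  linarith

theorem hF_RL : RL hF 0 1 := by
  refine ⟨1 / 2, by norm_num, fun y hy hy' => ?_⟩
  have h1 : bs (2 * y) = 2 * y := bs_le (by linarith)
  rw [hF_apply, hF_0 le_rfl, bet_mid hy (by linarith), h1, h1, h1]
  rw [zpow_one]
  ring

theorem hT_eq : hT = tau ^ 5 * hF⁻¹ * (tau ^ 5)⁻¹ * hF := by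
  unfold hT cT hF
  simp only [inv_pow, inv_inv]

theorem hT_bump : Bump hT 0 6 := by
  have := comm_bump (f := hF) (m := 4) (c := 5) (by norm_num) (fun x hx => hF_0 hx)
    (fun x hx => hF_1 hx) (fun x hx => hF_p hx) (fun x hx => hF_l hx)
  rw [← hT_eq] at this
  norm_num at this
  exact this

theorem hT_slope : RL hT 0 1 := by
  rw [hT_eq]
  exact comm_slope (by norm_num) (fun x hx => hF_0 hx) hF_RL

theorem hT_1 : hT 1 = 5 := by
  rw [hT_eq, mulA, mulA, mulA, tau_pow, tau_pow_inv, hF_1 le_rfl]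
  have : hF (1 + 4 - (5 : ℕ)) = 1 + 4 - (5 : ℕ) := hF_0 (by norm_num)
  have h3 : hF⁻¹ (1 + 4 - (5 : ℕ)) = 1 + 4 - (5 : ℕ) := by
    conv_lhs => rw [← this]
    rw [invL]
  rw [h3]
  norm_num

theorem sl_conj {u g : H} (hu : u ∈ PLG) (hg : g ∈ PLG) {x : ℝ} (hx : g x = x) :
    sl (u * g * u⁻¹) (u x) = sl g x := by
  rw [sl_mul (mul_mem hu hg) (inv_mem hu), sl_mul hu hg, sl_inv hu, invL, hx]
  ring

theorem hY_eq : hY = tau * hD * tau⁻¹ := by
  unfold hY cY hD
  rw [inv_inv]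

theorem hL_eq : hL = (tau ^ 4)⁻¹ * hD * ((tau ^ 4)⁻¹)⁻¹ := by
  unfold hL cL hD
  simp only [inv_pow]

theorem hR_eq : hR = tau ^ 6 * hD * (tau ^ 6)⁻¹ := by
  unfold hR cR hD
  simp only [inv_pow, inv_inv]

theorem hY_bump : Bump hY 1 5 := by
  have := hD_bump.conj tau
  rw [← hY_eq, tau_apply, tau_apply] at this
  norm_num at this
  exact this

theorem hL_bump : Bump hL (-4) 0 := by
  have := hD_bump.conj (tau ^ 4)⁻¹
  rw [← hL_eq, tau_pow_inv, tau_pow_inv] at this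
  norm_num at this
  exact this

theorem hR_bump : Bump hR 6 10 := by
  have := hD_bump.conj (tau ^ 6)
  rw [← hR_eq, tau_pow, tau_pow] at this
  norm_num at this
  exact this

theorem hD_mem : hD ∈ PLG := by
  rw [hD_eq]
  exact mul_mem (mul_mem (mul_mem (pow_mem tau_mem _) (inv_mem bet_mem))
    (inv_mem (pow_mem tau_mem _))) bet_mem

theorem hT_mem : hT ∈ PLG := by
  have hf : hF ∈ PLG := by
    rw [hF_eq]
    exact mul_mem (pow_mem (mul_mem (mul_mem tau_mem bet_mem) (inv_mem tau_mem)) _) bet_mem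
  rw [hT_eq]
  exact mul_mem (mul_mem (mul_mem (pow_mem tau_mem _) (inv_mem hf))
    (inv_mem (pow_mem tau_mem _))) hf

theorem hY_mem : hY ∈ PLG := by
  rw [hY_eq]
  exact mul_mem (mul_mem tau_mem hD_mem) (inv_mem tau_mem)

theorem hL_mem : hL ∈ PLG := by
  rw [hL_eq]
  exact mul_mem (mul_mem (inv_mem (pow_mem tau_mem _)) hD_mem)
    (inv_mem (inv_mem (pow_mem tau_mem _)))

theorem hR_mem : hR ∈ PLG := by
  rw [hR_eq]
  exact mul_mem (mul_mem (pow_mem tau_mem _) hD_mem) (inv_mem (pow_mem tau_mem _))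

theorem hT_sl : sl hT 0 = 1 := sl_eq hT_slope

theorem hD_sl : sl hD 0 = 1 := sl_eq hD_slope

theorem hY_sl : sl hY 1 = 1 := by
  have := sl_conj tau_mem hD_mem (hD_bump.left 0 le_rfl)
  rw [← hY_eq, tau_apply, hD_sl] at this
  norm_num at this
  exact this

theorem hL_sl : sl hL (-4) = 1 := by
  have := sl_conj (inv_mem (pow_mem tau_mem 4)) hD_mem (hD_bump.left 0 le_rfl)
  rw [← hL_eq, tau_pow_inv, hD_sl] at this
  norm_num at this
  exact this

theorem hR_sl : sl hR 6 = 1 := by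
  have := sl_conj (pow_mem tau_mem 6) hD_mem (hD_bump.left 0 le_rfl)
  rw [← hR_eq, tau_pow, hD_sl] at this
  norm_num at this
  exact this

/-- kinds of special elements -/
inductive Kd
  | t | y | l | r
  deriving DecidableEq

def ce {Γ : Type*} [Group Γ] (a b : Γ) : Kd → Γ
  | .t => cT a b
  | .y => cY a b
  | .l => cL a b
  | .r => cR a b

theorem map_ce {Γ Γ' : Type*} [Group Γ] [Group Γ'] (φ : Γ →* Γ') (a b : Γ) (k : Kd) :
    φ (ce a b k) = ce (φ a) (φ b) k := by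
  cases k
  · exact map_cT φ a b
  · exact map_cY φ a b
  · exact map_cL φ a b
  · exact map_cR φ a b

noncomputable def hE (k : Kd) : H := ce tau⁻¹ bet⁻¹ k

def lo : Kd → ℝ
  | .t => 0
  | .y => 1
  | .l => -4
  | .r => 6

def hi : Kd → ℝ
  | .t => 6
  | .y => 5
  | .l => 0
  | .r => 10

theorem hE_bump (k : Kd) : Bump (hE k) (lo k) (hi k) := by
  cases k
  · exact hT_bump
  · exact hY_bump
  · exact hL_bump
  · exact hR_bump

theorem hE_mem (k : Kd) : hE k ∈ PLG := by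
  cases k
  · exact hT_mem
  · exact hY_mem
  · exact hL_mem
  · exact hR_mem

theorem hE_sl (k : Kd) : sl (hE k) (lo k) = 1 := by
  cases k
  · exact hT_sl
  · exact hY_sl
  · exact hL_sl
  · exact hR_sl

theorem lo_ge (k : Kd) : -4 ≤ lo k := by
  cases k <;> norm_num [lo]

theorem hi_le (k : Kd) : hi k ≤ 10 := by
  cases k <;> norm_num [hi]

/-- the special elements of the group -/
def gE (k : Kd) : G := ce ga gb k

theorem rho_gE (k : Kd) : rho (gE k) = hE k := by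
  unfold gE hE
  rw [map_ce, rho_a, rho_b]

end Pool.Agent.H245R3.TF
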