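import Mathlib
import Pool.Agent.H245R3.TF.Elts

set_option autoImplicit false

/-! Merging finitely many commutation conditions into a single equation. -/

namespace Pool.Agent.H245R3.TF

/-- ordered product -/
def pr {Γ : Type*} [Group Γ] (F : ℕ → Γ) : ℕ → Γ
  | 0 => 1
  | n + 1 => pr F n * F n

theorem map_pr {Γ Γ' : Type*} [Group Γ] [Group Γ'] (φ : Γ →* Γ') (F : ℕ → Γ) (n : ℕ) :
    φ (pr F n) = pr (fun i => φ (F i)) n := by
  induction n with
  | zero => simp [pr]
  | succ n ih => simp [pr, ih]

theorem pr_congr {Γ : Type*} [Group Γ] {F F' : ℕ → Γ} {n : ℕ} (h : ∀ i < n, F i = F' i) :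
    pr F n = pr F' n := by
  induction n with
  | zero => rfl
  | succ n ih =>
    simp only [pr]
    rw [ih (fun i hi => h i (by omega)), h n (by omega)]

theorem pr_lo {F : ℕ → H} {n : ℕ} (h : ∀ i < n, ∀ x, x ≤ F i x) (x : ℝ) : x ≤ pr F n x := by
  induction n generalizing x with
  | zero => simp [pr, oneA]
  | succ n ih =>
    simp only [pr, mulA]
    exact (h n (by omega) x).trans (ih (fun i hi => h i (by omega)) _)

theorem pr_fix {F : ℕ → H} {n : ℕ} {x : ℝ} (h : ∀ i < n, F i x = x) : pr F n x = x := by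
  induction n with
  | zero => simp [pr, oneA]
  | succ n ih =>
    simp only [pr, mulA]
    rw [h n (by omega), ih (fun i hi => h i (by omega))]

theorem fix_pr {F : ℕ → H} {n : ℕ} (h : ∀ i < n, ∀ x, x ≤ F i x) {x : ℝ} (hx : pr F n x = x) :
    ∀ i < n, F i x = x := by
  induction n with
  | zero => intro i hi; omega
  | succ n ih =>
    simp only [pr, mulA] at hx
    have h1 := h n (by omega) x
    have h2 := pr_lo (fun i hi => h i (by omega : i < n + 1)) (F n x) (n := n)
    have h3 : F n x = x := by linarith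
    rw [h3] at hx
    intro i hi
    rcases Nat.lt_succ_iff_lt_or_eq.1 hi with h4 | h4
    · exact ih (fun i hi => h i (by omega)) hx i h4
    · rw [h4]; exact h3

theorem pr_mem {F : ℕ → H} {n : ℕ} (h : ∀ i < n, F i ∈ PLG) : pr F n ∈ PLG := by
  induction n with
  | zero => exact one_mem _
  | succ n ih => exact mul_mem (ih fun i hi => h i (by omega)) (h n (by omega))

theorem pr_sl {F : ℕ → H} {n : ℕ} (h : ∀ i < n, F i ∈ PLG) {x : ℝ} (hx : ∀ i < n, F i x = x) :
    sl (pr F n) x = ∑ i ∈ Finset.range n, sl (F i) x := by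
  induction n with
  | zero => simp [pr, sl_one]
  | succ n ih =>
    rw [Finset.sum_range_succ, ← ih (fun i hi => h i (by omega)) (fun i hi => hx i (by omega))]
    simp only [pr]
    rw [sl_mul (pr_mem fun i hi => h i (by omega)) (h n (by omega)), hx n (by omega)]

theorem pr_act {F : ℕ → H} {n j : ℕ} (hj : j < n) {x : ℝ}
    (h : ∀ i < n, i ≠ j → F i x = x ∧ F i (F j x) = F j x) : pr F n x = F j x := by
  induction n with
  | zero => omega
  | succ n ih =>
    simp only [pr, mulA]
    rcases Nat.lt_succ_iff_lt_or_eq.1 hj with h4 | h4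
    · rw [(h n (by omega) (by omega)).1]
      exact ih h4 (fun i hi hij => h i (by omega) hij)
    · subst h4
      exact pr_fix (fun i hi => (h i (by omega) (by omega)).2)

theorem Bump.sl_out {g : H} {a b x : ℝ} (h : Bump g a b) (hx : x < a ∨ b ≤ x) : sl g x = 0 := by
  apply sl_eq
  rcases hx with hx | hx
  · refine ⟨a - x, by linarith, fun y hy hy' => ?_⟩
    rw [h.left x hx.le, h.left y (by linarith)]
    simp
  · refine ⟨1, one_pos, fun y hy hy' => ?_⟩
    rw [h.right x hx, h.right y (by linarith)]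
    simp

theorem index_unique {N j : ℕ} (hj : j < N) (p : ℕ → Prop) [DecidablePred p]
    (h : ∑ i ∈ Finset.range N, (if p i then (N : ℤ) + i else 0) = N + j) : p j := by
  rw [← Finset.sum_filter] at h
  set S := (Finset.range N).filter p with hS
  have h1 : (S.card : ℤ) * N ≤ ∑ i ∈ S, ((N : ℤ) + i) := by
    have := Finset.card_nsmul_le_sum S (fun i : ℕ => (N : ℤ) + i) N (fun i _ => by simp)
    simpa using this
  rw [h] at h1
  have hN : (0 : ℤ) < N := by omega
  have h2 : (S.card : ℤ) < 2 := by
    by_contra hc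
    have hc' : (2 : ℤ) ≤ S.card := by omega
    have := mul_le_mul_of_nonneg_right hc' hN.le
    omega
  have h3 : S.card ≠ 0 := by
    intro h0
    rw [Finset.card_eq_zero] at h0
    rw [h0] at h
    simp at h
    omega
  have h4 : S.card = 1 := by omega
  obtain ⟨a, ha⟩ := Finset.card_eq_one.1 h4
  rw [ha, Finset.sum_singleton] at h
  have h5 : a = j := by omega
  have h6 : a ∈ S := by rw [ha]; exact Finset.mem_singleton_self a
  rw [hS, Finset.mem_filter, h5] at h6
  exact h6.2

theorem merge {N : ℕ} {c d : ℕ → ℝ} {g u : ℕ → H} (hg : ∀ i < N, Bump (g i) (c i) (d i))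
    (hgm : ∀ i < N, g i ∈ PLG) (hum : ∀ i < N, u i ∈ PLG)
    (sep : ∀ i j, i < j → j < N → d i < c j)
    (hsl : ∀ i < N, sl (g i) (c i) = N + i)
    (heq : pr (fun i => u i * g i * (u i)⁻¹) N = pr g N) :
    ∀ i < N, u i * g i * (u i)⁻¹ = g i := by
  set F : ℕ → H := fun i => u i * g i * (u i)⁻¹ with hF
  have hFb : ∀ i < N, Bump (F i) (u i (c i)) (u i (d i)) := fun i hi => (hg i hi).conj (u i)
  have hFm : ∀ i < N, F i ∈ PLG := fun i hi => mul_mem (mul_mem (hum i hi) (hgm i hi))
    (inv_mem (hum i hi))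
  -- different bumps
  have dsj : ∀ i < N, ∀ j < N, i ≠ j → ∀ x, c j ≤ x → x ≤ d j → g i x = x := by
    intro i hi j hj hij x h1 h2
    rcases lt_or_gt_of_ne hij with h | h
    · exact (hg i hi).right x (by have := sep i j h hj; linarith)
    · exact (hg i hi).left x (by have := sep j i h hi; linarith)
  have gfix : ∀ i < N, ∀ j < N, g i (c j) = c j ∧ g i (d j) = d j := by
    intro i hi j hj
    have hcd := (hg j hj).lt
    by_cases hij : i = j
    · subst hij
      exact ⟨(hg i hi).left _ le_rfl, (hg i hi).right _ le_rfl⟩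
    · exact ⟨dsj i hi j hj hij _ le_rfl hcd.le, dsj i hi j hj hij _ hcd.le le_rfl⟩
  have Ffix : ∀ i < N, ∀ j < N, F i (c j) = c j ∧ F i (d j) = d j := by
    intro i hi j hj
    have h1 : pr F N (c j) = c j := by rw [heq]; exact pr_fix fun i hi => (gfix i hi j hj).1
    have h2 : pr F N (d j) = d j := by rw [heq]; exact pr_fix fun i hi => (gfix i hi j hj).2
    exact ⟨fix_pr (fun i hi => (hFb i hi).le) h1 i hi, fix_pr (fun i hi => (hFb i hi).le) h2 i hi⟩
  -- left end points
  have hc : ∀ j < N, u j (c j) = c j := by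
    intro j hj
    have e1 : sl (pr g N) (c j) = N + j := by
      rw [pr_sl hgm (fun i hi => (gfix i hi j hj).1), Finset.sum_eq_single j]
      · exact hsl j hj
      · intro i hi hij
        rw [Finset.mem_range] at hi
        apply (hg i hi).sl_out
        rcases lt_or_gt_of_ne hij with h | h
        · right
          exact (sep i j h hj).le
        · left
          have h1 := sep j i h hi
          have h2 := (hg j hj).lt
          linarith
      · intro h
        exact absurd (Finset.mem_range.2 hj) h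
    have e2 : sl (pr F N) (c j) =
        ∑ i ∈ Finset.range N, (if u i (c i) = c j then (N : ℤ) + i else 0) := by
      rw [pr_sl hFm (fun i hi => (Ffix i hi j hj).1)]
      apply Finset.sum_congr rfl
      intro i hi
      rw [Finset.mem_range] at hi
      by_cases h : u i (c i) = c j
      · rw [if_pos h, ← h]
        have := sl_conj (hum i hi) (hgm i hi) (gfix i hi i hi).1
        rw [hsl i hi] at this
        exact this
      · rw [if_neg h]
        apply (hFb i hi).sl_out
        rcases ((hFb i hi).fix_iff (c j)).1 (Ffix i hi j hj).1 with h1 | h1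
        · left
          exact lt_of_le_of_ne h1 (Ne.symm h)
        · right
          exact h1
    rw [heq, e1] at e2
    exact index_unique hj (fun i => u i (c i) = c j) e2.symm
  have hd : ∀ j < N, u j (d j) ≤ d j := by
    intro j hj
    by_contra h
    rw [not_le] at h
    have h1 := (hFb j hj).pos (d j) (by rw [hc j hj]; exact (hg j hj).lt) h
    rw [(Ffix j hj j hj).2] at h1
    exact lt_irrefl _ h1
  have Fout : ∀ i < N, ∀ j < N, i ≠ j → ∀ x, c j ≤ x → x ≤ d j → F i x = x := by
    intro i hi j hj hij x h1 h2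
    have := hd i hi
    rcases lt_or_gt_of_ne hij with h | h
    · exact (hFb i hi).right x (by have := sep i j h hj; linarith)
    · exact (hFb i hi).left x (by rw [hc i hi]; have := sep j i h hi; linarith)
  intro j hj
  change F j = g j
  ext x
  rcases le_or_gt x (c j) with h1 | h1
  · rw [(hg j hj).left x h1, (hFb j hj).left x (by rw [hc j hj]; exact h1)]
  · rcases le_or_gt (d j) x with h2 | h2
    · rw [(hg j hj).right x h2, (hFb j hj).right x ((hd j hj).trans h2)]
    · have b1 : c j ≤ F j x ∧ F j x ≤ d j := by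
        constructor
        · rw [← (Ffix j hj j hj).1]
          exact (F j).le_iff_le.2 h1.le
        · rw [← (Ffix j hj j hj).2]
          exact (F j).le_iff_le.2 h2.le
      have b2 : c j ≤ g j x ∧ g j x ≤ d j := (hg j hj).strip h1.le h2.le
      have e1 : pr F N x = F j x := pr_act hj fun i hi hij =>
        ⟨Fout i hi j hj hij x h1.le h2.le, Fout i hi j hj hij _ b1.1 b1.2⟩
      have e2 : pr g N x = g j x := pr_act hj fun i hi hij =>
        ⟨dsj i hi j hj hij x h1.le h2.le, dsj i hi j hj hij _ b2.1 b2.2⟩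
      rw [← e1, ← e2, heq]

theorem sl_pow {g : H} (hg : g ∈ PLG) {x : ℝ} (hx : g x = x) (n : ℕ) :
    (g ^ n) x = x ∧ sl (g ^ n) x = n * sl g x := by
  induction n with
  | zero => simp [oneA, sl_one]
  | succ n ih =>
    rw [pow_succ]
    constructor
    · rw [mulA, hx, ih.1]
    · rw [sl_mul (pow_mem hg n) hg, hx, ih.2]
      push_cast
      ring

/-- the merging lemma for the special elements -/
theorem merge_hE {N : ℕ} (k : ℕ → Kd) (u : ℕ → H) (hum : ∀ i < N, u i ∈ PLG)
    (heq : pr (fun i => tau ^ (16 * i) * (u i * hE (k i) ^ (N + i) * (u i)⁻¹) *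
      (tau ^ (16 * i))⁻¹) N = pr (fun i => tau ^ (16 * i) * hE (k i) ^ (N + i) *
      (tau ^ (16 * i))⁻¹) N) :
    ∀ i < N, u i * hE (k i) ^ (N + i) = hE (k i) ^ (N + i) * u i := by
  have key := merge (N := N) (c := fun i => lo (k i) + (16 * i : ℕ))
    (d := fun i => hi (k i) + (16 * i : ℕ))
    (g := fun i => tau ^ (16 * i) * hE (k i) ^ (N + i) * (tau ^ (16 * i))⁻¹)
    (u := fun i => tau ^ (16 * i) * u i * (tau ^ (16 * i))⁻¹) ?_ ?_ ?_ ?_ ?_ ?_
  · intro i hi'
    have h := key i hi'
    have e : tau ^ (16 * i) * u i * (tau ^ (16 * i))⁻¹ *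
        (tau ^ (16 * i) * hE (k i) ^ (N + i) * (tau ^ (16 * i))⁻¹) *
        (tau ^ (16 * i) * u i * (tau ^ (16 * i))⁻¹)⁻¹ =
        tau ^ (16 * i) * (u i * hE (k i) ^ (N + i) * (u i)⁻¹) * (tau ^ (16 * i))⁻¹ := by
      group
    rw [e] at h
    have h2 := mul_left_cancel (mul_right_cancel h)
    rw [mul_inv_eq_iff_eq_mul] at h2
    exact h2
  · intro i hi'
    have := ((hE_bump (k i)).pow (n := N + i) (by omega)).conj (tau ^ (16 * i))
    rw [tau_pow, tau_pow] at this
    exact this
  · intro i hi'
    exact mul_mem (mul_mem (pow_mem tau_mem _) (pow_mem (hE_mem _) _))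
      (inv_mem (pow_mem tau_mem _))
  · intro i hi'
    exact mul_mem (mul_mem (pow_mem tau_mem _) (hum i hi'))
      (inv_mem (pow_mem tau_mem _))
  · intro i j hij hj
    have h1 := lo_ge (k j)
    have h2 := hi_le (k i)
    have h3 : ((16 * i : ℕ) : ℝ) + 16 ≤ (16 * j : ℕ) := by
      have : 16 * i + 16 ≤ 16 * j := by omega
      exact_mod_cast this
    linarith
  · intro i hi'
    have h1 := sl_pow (hE_mem (k i)) ((hE_bump (k i)).left _ le_rfl) (N + i)
    have h2 := sl_conj (u := tau ^ (16 * i)) (pow_mem tau_mem _)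
      (pow_mem (hE_mem (k i)) (N + i)) h1.1
    rw [tau_pow, h1.2, hE_sl] at h2
    rw [h2]
    push_cast
    ring
  · rw [← heq]
    apply pr_congr
    intro i hi'
    group

end Pool.Agent.H245R3.TF
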