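import Mathlib
import Pool.Agent.H245R3.TF.Merge

set_option autoImplicit false

/-! Elements commuting with the long bump, and the multiplication gadget. -/

namespace Pool.Agent.H245R3.TF

/-- the stabiliser of the two end points -/
def St : Subgroup H where
  carrier := {h | h 0 = 0 ∧ h 6 = 6}
  one_mem' := ⟨rfl, rfl⟩
  mul_mem' := by
    rintro f g ⟨h1, h2⟩ ⟨h3, h4⟩
    exact ⟨by rw [mulA, h3, h1], by rw [mulA, h4, h2]⟩
  inv_mem' := by
    rintro f ⟨h1, h2⟩
    constructor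
    · conv_lhs => rw [← h1]
      rw [invL]
    · conv_lhs => rw [← h2]
      rw [invL]

theorem mem_St {h : H} : h ∈ St ↔ h 0 = 0 ∧ h 6 = 6 := Iff.rfl

theorem St_mem {h : H} (hh : h ∈ St) {x : ℝ} (h0 : 0 ≤ x) (h6 : x ≤ 6) : 0 ≤ h x ∧ h x ≤ 6 := by
  rw [mem_St] at hh
  constructor
  · rw [← hh.1]; exact h.le_iff_le.2 h0
  · rw [← hh.2]; exact h.le_iff_le.2 h6

/-- restriction to the interval -/
noncomputable def res : St →* Equiv.Perm (Set.Icc (0 : ℝ) 6) where
  toFun h :=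
    { toFun := fun x => ⟨h.1 x.1, St_mem h.2 x.2.1 x.2.2⟩
      invFun := fun x => ⟨(h.1)⁻¹ x.1, St_mem (inv_mem h.2) x.2.1 x.2.2⟩
      left_inv := fun x => by
        apply Subtype.ext
        exact invL h.1 x.1
      right_inv := fun x => by
        apply Subtype.ext
        exact invR h.1 x.1 }
  map_one' := by
    ext x
    rfl
  map_mul' f g := by
    ext x
    rfl

theorem res_apply (h : St) (x : Set.Icc (0 : ℝ) 6) : ((res h x : Set.Icc (0 : ℝ) 6) : ℝ) =
    h.1 x.1 := rfl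

theorem res_eq {h h' : St} : res h = res h' ↔ ∀ x, 0 ≤ x → x ≤ 6 → h.1 x = h'.1 x := by
  constructor
  · intro e x h0 h6
    have := congrArg (fun f : Equiv.Perm (Set.Icc (0 : ℝ) 6) =>
      ((f ⟨x, h0, h6⟩ : Set.Icc (0 : ℝ) 6) : ℝ)) e
    exact this
  · intro e
    ext x
    exact e x.1 x.2.1 x.2.2

theorem T_St : hT ∈ St := by
  rw [mem_St]
  exact ⟨hT_bump.left 0 le_rfl, hT_bump.right 6 le_rfl⟩

theorem Y_St : hY ∈ St := by
  rw [mem_St]
  exact ⟨hY_bump.left 0 (by norm_num), hY_bump.right 6 (by norm_num)⟩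

/-- elements commuting with a power of the long bump and flat at the left end -/
theorem id_of_comm {h : H} (hm : h ∈ PLG) {w : ℕ} (hw : 1 ≤ w) (hc : h * hT ^ w = hT ^ w * h)
    (hs : sl h 0 = 0) : ∀ x, 0 ≤ x → x ≤ 6 → h x = x := by
  intro x h0 h6
  have Bb := hT_bump.pow hw
  obtain ⟨f0, f6⟩ := Bb.fix_of_comm hc
  have hsp := sl_spec hm 0
  rw [hs] at hsp
  obtain ⟨δ, hδ, hh⟩ := hsp
  rcases eq_or_lt_of_le h6 with h7 | h7
  · rw [h7]; exact f6
  · obtain ⟨N, hN⟩ := Bb.arch_left h7 hδ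
    set B := (hT ^ w) ^ N with hB
    have hBS : B ∈ St := pow_mem (pow_mem T_St _) _
    have hc2 : h * B = B * h := (Commute.pow_right (show Commute h (hT ^ w) from hc) N)
    have y0 : 0 ≤ B⁻¹ x := (St_mem (inv_mem hBS) h0 h6).1
    have e1 := hh _ y0 hN
    rw [f0, zpow_zero] at e1
    have e2 : h (B⁻¹ x) = B⁻¹ x := by rw [e1]; ring
    have e3 := DFunLike.congr_fun hc2 (B⁻¹ x)
    rw [mulA, mulA, invR, e2, invR] at e3
    exact e3

theorem zpow_sl (j : ℤ) : sl (hT ^ j) 0 = j := by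
  have h0 : hT 0 = 0 := hT_bump.left 0 le_rfl
  obtain ⟨n, rfl | rfl⟩ := j.eq_nat_or_neg
  · rw [zpow_natCast, (sl_pow hT_mem h0 n).2, hT_sl]
    ring
  · have h1 := sl_pow hT_mem h0 n
    have := sl_inv (pow_mem hT_mem n) 0
    rw [h1.1, h1.2, hT_sl] at this
    rw [zpow_neg, zpow_natCast, this]
    ring

theorem comm_T {z : H} (hm : z ∈ PLG) {w : ℕ} (hw : 1 ≤ w) (hc : z * hT ^ w = hT ^ w * z) :
    z ∈ St ∧ ∃ j : ℤ, ∀ x, 0 ≤ x → x ≤ 6 → z x = (hT ^ j) x := by
  have Bb := hT_bump.pow hw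
  have fz := Bb.fix_of_comm hc
  refine ⟨fz, sl z 0, ?_⟩
  set j := sl z 0 with hj
  have hz : (hT ^ j)⁻¹ * z ∈ PLG := mul_mem (inv_mem (zpow_mem hT_mem _)) hm
  have hc' : (hT ^ j)⁻¹ * z * hT ^ w = hT ^ w * ((hT ^ j)⁻¹ * z) := by
    have h1 : Commute z (hT ^ w) := hc
    have h2 : Commute ((hT ^ j)⁻¹) (hT ^ w) := by
      have : Commute hT hT := Commute.refl _
      exact ((this.zpow_left j).pow_right w).inv_left
    exact (h2.mul_left h1)
  have hs : sl ((hT ^ j)⁻¹ * z) 0 = 0 := by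
    rw [sl_mul (inv_mem (zpow_mem hT_mem _)) hm, fz.1, ← zpow_neg, zpow_sl, ← hj]
    ring
  intro x h0 h6
  have := id_of_comm hz hw hc' hs x h0 h6
  rw [mulA] at this
  conv_rhs => rw [← this]
  rw [invR]

theorem Bump.zpow_fix {g : H} {a b : ℝ} (h : Bump g a b) {m : ℤ} {x : ℝ} (h1 : a < x)
    (h2 : x < b) (hx : (g ^ m) x = x) : m = 0 := by
  obtain ⟨n, rfl | rfl⟩ := m.eq_nat_or_neg
  · by_contra hn
    have hn' : 1 ≤ n := by omega
    have := (h.pow hn').pos x h1 h2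
    rw [zpow_natCast] at hx
    linarith
  · by_contra hn
    have hn' : 1 ≤ n := by omega
    have := (h.pow hn').pos x h1 h2
    rw [zpow_neg, zpow_natCast] at hx
    have hx2 : (g ^ n) x = x := by
      conv_lhs => rw [← hx]
      rw [invR]
    linarith

theorem comm_TY {h : H} (hm : h ∈ PLG) {w w' : ℕ} (hw : 1 ≤ w) (hw' : 1 ≤ w')
    (hc : h * hT ^ w = hT ^ w * h) (hc' : h * hY ^ w' = hY ^ w' * h) :
    ∀ x, 0 ≤ x → x ≤ 6 → h x = x := by
  obtain ⟨_, j, hj⟩ := comm_T hm hw hc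
  have h1 : h 1 = 1 := ((hY_bump.pow hw').fix_of_comm hc').1
  rw [hj 1 (by norm_num) (by norm_num)] at h1
  have := hT_bump.zpow_fix (by norm_num) (by norm_num) h1
  subst this
  intro x h0 h6
  rw [hj x h0 h6]
  simp [oneA]

/-- the orbit of the point one -/
noncomputable def pt (s : ℤ) : ℝ := (hT ^ s) 1

theorem pt_zero : pt 0 = 1 := by simp [pt, oneA]

theorem pt_one : pt 1 = 5 := by simp [pt, hT_1]

theorem pt_succ (s : ℤ) : pt (s + 1) = (hT ^ s) 5 := by
  unfold pt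
  rw [zpow_add_one, mulA, hT_1]

theorem pt_mono : StrictMono pt := by
  apply strictMono_int_of_lt_succ
  intro s
  rw [pt_succ]
  unfold pt
  rw [(hT ^ s).lt_iff_lt]
  norm_num

theorem pt_pos (s : ℤ) : 0 < pt s := by
  have := (zpow_mem T_St s : hT ^ s ∈ St).1
  conv_lhs => rw [← this]
  unfold pt
  rw [(hT ^ s).lt_iff_lt]
  norm_num

theorem pt_lt (s : ℤ) : pt s < 6 := by
  have := (zpow_mem T_St s : hT ^ s ∈ St).2
  conv_rhs => rw [← this]
  unfold pt
  rw [(hT ^ s).lt_iff_lt]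
  norm_num

theorem pt_small {ε : ℝ} (hε : 0 < ε) : ∃ S : ℤ, ∀ s ≤ S, pt s < ε := by
  obtain ⟨N, hN⟩ := hT_bump.arch_left (x := 1) (by norm_num) hε
  refine ⟨-N, fun s hs => lt_of_le_of_lt (pt_mono.monotone hs) ?_⟩
  unfold pt
  rw [zpow_neg, zpow_natCast]
  simpa using hN

theorem pt_large {ε : ℝ} (hε : 0 < ε) : ∃ S : ℤ, ∀ s, S ≤ s → 6 - ε < pt s := by
  obtain ⟨N, hN⟩ := hT_bump.arch_right (x := 1) (by norm_num) hε
  refine ⟨N, fun s hs => lt_of_lt_of_le ?_ (pt_mono.monotone hs)⟩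
  unfold pt
  rw [zpow_natCast]
  exact hN

theorem T_mem {x : ℝ} (h1 : 1 ≤ x) (h5 : x < 5) (s : ℤ) : pt s ≤ (hT ^ s) x ∧
    (hT ^ s) x < pt (s + 1) := by
  rw [pt_succ]
  unfold pt
  rw [(hT ^ s).lt_iff_lt, (hT ^ s).le_iff_le]
  exact ⟨h1, h5⟩

theorem Y_fix1 (j : ℤ) : (hY ^ j) 1 = 1 := by
  obtain ⟨n, rfl | rfl⟩ := j.eq_nat_or_neg
  · rw [zpow_natCast]; exact (sl_pow hY_mem (hY_bump.left 1 le_rfl) n).1
  · rw [zpow_neg, zpow_natCast]
    have := (sl_pow hY_mem (hY_bump.left 1 le_rfl) n).1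
    conv_lhs => rw [← this]
    rw [invL]

theorem Y_fix5 (j : ℤ) : (hY ^ j) 5 = 5 := by
  obtain ⟨n, rfl | rfl⟩ := j.eq_nat_or_neg
  · rw [zpow_natCast]; exact (sl_pow hY_mem (hY_bump.right 5 le_rfl) n).1
  · rw [zpow_neg, zpow_natCast]
    have := (sl_pow hY_mem (hY_bump.right 5 le_rfl) n).1
    conv_lhs => rw [← this]
    rw [invL]

theorem Y_mem {x : ℝ} (h1 : 1 ≤ x) (h5 : x < 5) (j : ℤ) : 1 ≤ (hY ^ j) x ∧ (hY ^ j) x < 5 := by
  constructor
  · rw [← Y_fix1 j, (hY ^ j).le_iff_le]; exact h1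
  · rw [← Y_fix5 j, (hY ^ j).lt_iff_lt]; exact h5

theorem Y_inj {i j : ℤ} (h : ∀ x, 1 ≤ x → x < 5 → (hY ^ i) x = (hY ^ j) x) : i = j := by
  have h2 := h 2 (by norm_num) (by norm_num)
  have : (hY ^ (i - j)) 2 = 2 := by
    have e : hY ^ (i - j) = (hY ^ j)⁻¹ * hY ^ i := by
      rw [← zpow_neg, ← zpow_add]
      ring_nf
    rw [e, mulA, h2, invL]
  have := hY_bump.zpow_fix (by norm_num) (by norm_num) this
  omega

theorem conjY_other {m : ℤ} (hm : m ≠ 0) {x : ℝ} (h1 : 1 ≤ x) (h5 : x ≤ 5) :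
    (hT ^ m * hY * (hT ^ m)⁻¹) x = x := by
  have hb := hY_bump.conj (hT ^ m)
  rcases lt_or_gt_of_ne hm with h | h
  · apply hb.right
    rw [← pt_succ]
    have : pt (m + 1) ≤ pt 0 := pt_mono.monotone (by omega)
    rw [pt_zero] at this
    linarith
  · apply hb.left
    have : pt 1 ≤ pt m := pt_mono.monotone (by omega)
    rw [pt_one] at this
    exact h5.trans this

/-- the key computation -/
theorem lemK {n : ℤ} (hn : n ≠ 0) {w a : H} (hw : w ∈ PLG) (hsl : sl w 0 = 0) (hwS : w ∈ St)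
    {γ : ℤ → ℤ}
    (ha : ∀ s x, 1 ≤ x → x < 5 → ((hT ^ s)⁻¹ * a * hT ^ s) x = (hY ^ (γ s)) x)
    (hrel : ∀ x, 0 ≤ x → x ≤ 6 → (hT ^ n * w * (hT ^ n)⁻¹) x = a (w x)) :
    ∃ g : ℤ → ℤ, (Function.support g).Finite ∧
      (∀ s x, 1 ≤ x → x < 5 → ((hT ^ s)⁻¹ * w * hT ^ s) x = (hY ^ (g s)) x) ∧
      ∀ s, g (s - n) - g s = γ s := by
  set W : ℤ → H := fun s => (hT ^ s)⁻¹ * w * hT ^ s with hW
  set A : ℤ → H := fun s => (hT ^ s)⁻¹ * a * hT ^ s with hA
  have R1 : ∀ s x, 1 ≤ x → x < 5 → W (s - n) x = A s (W s x) := by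
    intro s x h1 h5
    have hx := T_mem h1 h5 s
    have h0 := pt_pos s
    have h6 := pt_lt (s + 1)
    have e := hrel ((hT ^ s) x) (by linarith) (by linarith)
    have e1 : hT ^ (s - n) = (hT ^ n)⁻¹ * hT ^ s := by
      rw [← zpow_neg, ← zpow_add]
      ring_nf
    have e2 : (hT ^ (s - n))⁻¹ = (hT ^ s)⁻¹ * hT ^ n := by
      rw [e1, mul_inv_rev, inv_inv]
    simp only [hW, hA]
    rw [e2, e1]
    simp only [mulA] at e ⊢
    rw [e, invR]
  have hsp := sl_spec hw 0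
  rw [hsl] at hsp
  obtain ⟨δ, hδ, hh⟩ := hsp
  have hid : ∀ y, 0 ≤ y → y < δ → w y = y := by
    intro y h0 h1
    have := hh y h0 (by linarith)
    rw [hwS.1, zpow_zero] at this
    rw [this]; ring
  obtain ⟨S0, hS0⟩ := pt_small hδ
  have low : ∀ s, s + 1 ≤ S0 → ∀ x, 1 ≤ x → x < 5 → W s x = (hY ^ (0 : ℤ)) x := by
    intro s hs x h1 h5
    have hx := T_mem h1 h5 s
    have h0 := pt_pos s
    have h2 := hS0 (s + 1) hs
    simp only [hW]
    rw [mulA, mulA, hid _ (by linarith) (by linarith), invL]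
    simp [oneA]
  have claim : ∀ k : ℕ, ∀ s, s ≤ S0 - 1 + k → ∃ j : ℤ, ∀ x, 1 ≤ x → x < 5 →
      W s x = (hY ^ j) x := by
    intro k
    induction k with
    | zero =>
      intro s hs
      exact ⟨0, low s (by push_cast at hs; omega)⟩
    | succ k ih =>
      intro s hs
      rcases lt_or_gt_of_ne hn with h | h
      · obtain ⟨j, hj⟩ := ih (s + n) (by push_cast at hs; omega)
        refine ⟨γ (s + n) + j, fun x h1 h5 => ?_⟩
        have := R1 (s + n) x h1 h5
        rw [show s + n - n = s by ring] at this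
        rw [this, hj x h1 h5]
        have hy := Y_mem h1 h5 j
        rw [ha _ _ hy.1 hy.2, zpow_add, mulA]
      · obtain ⟨j, hj⟩ := ih (s - n) (by push_cast at hs; omega)
        refine ⟨-γ s + j, fun x h1 h5 => ?_⟩
        have := R1 s x h1 h5
        rw [hj x h1 h5] at this
        rw [← (A s).apply_eq_iff_eq, ← this]
        have hy := Y_mem h1 h5 (-γ s + j)
        rw [ha _ _ hy.1 hy.2, ← mulA, ← zpow_add]
        ring_nf
  have all : ∀ s, ∃ j : ℤ, ∀ x, 1 ≤ x → x < 5 → W s x = (hY ^ j) x := by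
    intro s
    exact claim (s - (S0 - 1)).toNat s (by omega)
  choose g hg using all
  refine ⟨g, ?_, hg, ?_⟩
  · -- finite support
    have hll := (hw 6).2
    obtain ⟨k, ε, hε, hl⟩ := hll
    obtain ⟨S1, hS1⟩ := pt_large hε
    have hfix : ∀ s, w (pt s) = pt s := by
      intro s
      have h1 := hg s 1 le_rfl (by norm_num)
      rw [Y_fix1] at h1
      simp only [hW] at h1
      rw [mulA, mulA] at h1
      have h2 := congrArg (hT ^ s) h1
      rw [invR] at h2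
      exact h2
    have hk : (2 : ℝ) ^ k = 1 := by
      have h1 := hl (pt S1) (hS1 S1 le_rfl) (pt_lt S1).le
      rw [hfix, hwS.2] at h1
      have h2 := pt_lt S1
      have h3 : ((2 : ℝ) ^ k - 1) * (pt S1 - 6) = 0 := by linarith
      rcases mul_eq_zero.1 h3 with h4 | h4
      · linarith
      · linarith
    have hid6 : ∀ y, 6 - ε < y → y ≤ 6 → w y = y := by
      intro y h0 h1
      rw [hl y h0 h1, hwS.2, hk]
      ring
    apply Set.Finite.subset (Set.finite_Icc S0 S1)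
    intro s hs
    rw [Function.mem_support] at hs
    by_contra hc
    rw [Set.mem_Icc, not_and_or, not_le, not_le] at hc
    apply hs
    apply Y_inj
    intro x h1 h5
    rw [← hg s x h1 h5]
    rcases hc with h | h
    · exact low s (by omega) x h1 h5
    · have hx := T_mem h1 h5 s
      have h2 := pt_lt (s + 1)
      have h3 := hS1 s h.le
      simp only [hW]
      rw [mulA, mulA, hid6 _ (by linarith) (by linarith), invL]
      simp [oneA]
  · intro s
    have : g (s - n) = γ s + g s := by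
      apply Y_inj
      intro x h1 h5
      rw [← hg _ x h1 h5, R1 s x h1 h5, hg s x h1 h5]
      have hy := Y_mem h1 h5 (g s)
      rw [ha _ _ hy.1 hy.2, zpow_add, mulA]
    rw [this]
    ring

/-! weighted sums -/

theorem fs_shift (f : ℤ → ℤ) (n : ℤ) : ∑ᶠ s, f (s - n) = ∑ᶠ s, f s :=
  finsum_comp_equiv (Equiv.subRight n)

theorem supp_shift {f : ℤ → ℤ} (hf : (Function.support f).Finite) (n : ℤ) :
    (Function.support fun s => f (s - n)).Finite := by
  have : (Function.support fun s => f (s - n)) = (Equiv.subRight n) ⁻¹' (Function.support f) := by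
    ext s
    simp
  rw [this]
  exact hf.preimage (Equiv.injective _).injOn

theorem sum_zero {g γ : ℤ → ℤ} {n : ℤ} (hg : (Function.support g).Finite)
    (h : ∀ s, g (s - n) - g s = γ s) : ∑ᶠ s, γ s = 0 := by
  have : γ = fun s => g (s - n) - g s := funext fun s => (h s).symm
  rw [this, finsum_sub_distrib (supp_shift hg n) hg, fs_shift]
  ring

theorem supp_mul {f : ℤ → ℤ} (hf : (Function.support f).Finite) (c : ℤ → ℤ) :
    (Function.support fun s => c s * f s).Finite := by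
  apply hf.subset
  intro s hs
  rw [Function.mem_support] at *
  intro h
  exact hs (by rw [h, mul_zero])

theorem sum_weight {g γ : ℤ → ℤ} {n : ℤ} (hg : (Function.support g).Finite)
    (h : ∀ s, g (s - n) - g s = γ s) : ∑ᶠ s, s * γ s = n * ∑ᶠ s, g s := by
  have e : ∀ s, s * γ s = ((s - n) * g (s - n) + n * g (s - n)) - s * g s := by
    intro s
    rw [← h]
    ring
  have h1 := supp_mul hg (fun s => s)
  have h2 := supp_mul hg (fun _ => n)
  have h1' := supp_shift h1 n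
  have h2' := supp_shift h2 n
  have h3 : (Function.support fun s => (s - n) * g (s - n) + n * g (s - n)).Finite :=
    (h1'.union h2').subset (Function.support_add _ _)
  rw [finsum_congr e, finsum_sub_distrib h3 h1, finsum_add_distrib h1' h2',
    fs_shift (fun s => s * g s) n, fs_shift (fun s => n * g s) n, ← mul_finsum' _ n hg]
  ring

/-- the source term of the first two relations -/
def src (k s : ℤ) : ℤ := (if s = k then 1 else 0) - (if s = 0 then 1 else 0)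

theorem supp_single (k : ℤ) : (Function.support fun s : ℤ => if s = k then (1 : ℤ) else 0).Finite := by
  apply (Set.finite_singleton k).subset
  intro s hs
  rw [Function.mem_support] at hs
  by_contra hc
  exact hs (if_neg hc)

theorem src_weight (k : ℤ) : ∑ᶠ s, s * src k s = k := by
  have e : ∀ s, s * src k s = s * (if s = k then 1 else 0) - s * (if s = 0 then 1 else 0) := by
    intro s
    unfold src
    ring
  rw [finsum_congr e, finsum_sub_distrib (supp_mul (supp_single k) _)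
    (supp_mul (supp_single 0) _), finsum_eq_single _ k, finsum_eq_single _ 0]
  · simp
  · intro s hs
    rw [if_neg hs, mul_zero]
  · intro s hs
    rw [if_neg hs, mul_zero]

/-! the gadget -/

noncomputable def TS : St := ⟨hT, T_St⟩
noncomputable def YS : St := ⟨hY, Y_St⟩

theorem lemK' {n : ℤ} (hn : n ≠ 0) {x a : St} (hx : x.1 ∈ PLG) {γ : ℤ → ℤ}
    (ha : ∀ s y, 1 ≤ y → y < 5 → ((hT ^ s)⁻¹ * a.1 * hT ^ s) y = (hY ^ (γ s)) y)
    (hrel : res TS ^ n * res x * (res TS ^ n)⁻¹ * (res x)⁻¹ = res a) :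
    ∃ g : ℤ → ℤ, (Function.support g).Finite ∧
      (∀ s y, 1 ≤ y → y < 5 →
        ((hT ^ s)⁻¹ * (x.1 * hT ^ (-sl x.1 0)) * hT ^ s) y = (hY ^ (g s)) y) ∧
      ∀ s, g (s - n) - g s = γ s := by
  set j := sl x.1 0 with hj
  have hx0 : x.1 0 = 0 := x.2.1
  have hT0 : (hT ^ (-j)) 0 = 0 := (zpow_mem T_St (-j)).1
  refine lemK hn (w := x.1 * hT ^ (-j)) (a := a.1) (mul_mem hx (zpow_mem hT_mem _)) ?_
    (mul_mem x.2 (zpow_mem T_St _)) ha ?_
  · rw [sl_mul hx (zpow_mem hT_mem _), hT0, zpow_sl, ← hj]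
    ring
  · have e : res (TS ^ n * (x * TS ^ (-j)) * (TS ^ n)⁻¹) = res (a * (x * TS ^ (-j))) := by
      simp only [map_mul, map_inv, map_zpow]
      rw [← hrel]
      group
    exact res_eq.1 e

/-- translates of the short bump -/
noncomputable def cj (m : ℤ) : H := hT ^ m * hY * (hT ^ m)⁻¹

theorem cj_apply (m : ℤ) {y : ℝ} (h1 : 1 ≤ y) (h5 : y < 5) :
    cj m y = (hY ^ (if m = 0 then (1 : ℤ) else 0)) y := by
  unfold cj
  by_cases hm : m = 0
  · subst hm
    simp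
  · rw [if_neg hm, conjY_other hm h1 h5.le]
    simp [oneA]

theorem cj_inv_apply (m : ℤ) {y : ℝ} (h1 : 1 ≤ y) (h5 : y < 5) :
    (cj m)⁻¹ y = (hY ^ (-(if m = 0 then (1 : ℤ) else 0))) y := by
  have hy := Y_mem h1 h5 (-(if m = 0 then (1 : ℤ) else 0))
  rw [← (cj m).apply_eq_iff_eq, invR, cj_apply m hy.1 hy.2, ← mulA, ← zpow_add]
  simp [oneA]

noncomputable def aS (k : ℤ) : St := TS ^ k * YS * (TS ^ k)⁻¹ * YS⁻¹

theorem aS_val (k : ℤ) : (aS k).1 = hT ^ k * hY * (hT ^ k)⁻¹ * hY⁻¹ := rfl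

theorem aS_apply (k s : ℤ) (y : ℝ) (h1 : 1 ≤ y) (h5 : y < 5) :
    ((hT ^ s)⁻¹ * (aS k).1 * hT ^ s) y = (hY ^ (src k s)) y := by
  have e : (hT ^ s)⁻¹ * (aS k).1 * hT ^ s = cj (k - s) * (cj (-s))⁻¹ := by
    rw [aS_val]
    unfold cj
    rw [sub_eq_add_neg, add_comm k (-s), zpow_add]
    group
  have hy := Y_mem h1 h5 (-(if -s = 0 then (1 : ℤ) else 0))
  rw [e, mulA, cj_inv_apply _ h1 h5, cj_apply _ hy.1 hy.2, ← mulA, ← zpow_add]
  have e2 : ((if k - s = 0 then (1 : ℤ) else 0) + -(if -s = 0 then (1 : ℤ) else 0)) = src k s := by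
    unfold src
    have c1 : (k - s = 0) ↔ s = k := by omega
    have c2 : (-s = 0) ↔ s = 0 := by omega
    simp only [c1, c2]
    ring
  rw [e2]

theorem sl_res {f g : St} (hf : f.1 ∈ PLG) (h : res f = res g) : sl f.1 0 = sl g.1 0 := by
  rw [res_eq] at h
  symm
  apply sl_eq
  exact RL.congr (δ := 6) (by norm_num) (fun y h0 h6 => h y h0 (by linarith)) (sl_spec hf 0)

theorem gadget {n q k : ℤ} {zn zq zk v u w : St} (hv : v.1 ∈ PLG) (hu : u.1 ∈ PLG)
    (hw : w.1 ∈ PLG) (hzn : res zn = res TS ^ n) (hzq : res zq = res TS ^ q)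
    (hzk : res zk = res TS ^ k)
    (E1 : res (zn * v * zn⁻¹ * v⁻¹ * (zk * YS * zk⁻¹ * YS⁻¹)⁻¹) = 1)
    (E2 : res (TS * u * TS⁻¹ * u⁻¹ * (zq * YS * zq⁻¹ * YS⁻¹)⁻¹) = 1)
    (E3 : res (v * u⁻¹ * (TS * w * TS⁻¹ * w⁻¹)⁻¹) = 1) : k = n * q := by
  have F1 : res TS ^ n * res v * (res TS ^ n)⁻¹ * (res v)⁻¹ = res (aS k) := by
    simp only [map_mul, map_inv] at E1
    rw [mul_inv_eq_one, hzn, hzk] at E1
    rw [E1]
    unfold aS
    simp only [map_mul, map_inv, map_zpow]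
  have F2 : res TS ^ (1 : ℤ) * res u * (res TS ^ (1 : ℤ))⁻¹ * (res u)⁻¹ = res (aS q) := by
    simp only [map_mul, map_inv] at E2
    rw [mul_inv_eq_one, hzq] at E2
    rw [zpow_one, E2]
    unfold aS
    simp only [map_mul, map_inv, map_zpow]
  have F3 : res TS ^ (1 : ℤ) * res w * (res TS ^ (1 : ℤ))⁻¹ * (res w)⁻¹ = res (v * u⁻¹) := by
    rw [map_mul, mul_eq_one_iff_eq_inv] at E3
    rw [E3, zpow_one]
    simp only [map_mul, map_inv, inv_inv]
  by_cases hn : n = 0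
  · subst hn
    rw [zpow_zero] at F1
    have F1' : res (aS k) = res 1 := by rw [← F1, map_one]; group
    rw [res_eq] at F1'
    have : src k 0 = 0 := by
      apply Y_inj
      intro y h1 h5
      rw [← aS_apply k 0 y h1 h5]
      have := F1' y (by linarith) (by linarith)
      simp only [zpow_zero, inv_one, one_mul, mul_one]
      rw [this]
      rfl
    unfold src at this
    by_contra hk
    rw [if_neg (by omega)] at this
    simp at this
  · obtain ⟨gv, sv, av, rv⟩ := lemK' hn hv (fun s y => aS_apply k s y) F1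
    obtain ⟨gu, su, au, ru⟩ := lemK' one_ne_zero hu (fun s y => aS_apply q s y) F2
    have hj : sl v.1 0 = sl u.1 0 := by
      have hvu : (v * u⁻¹).1 ∈ PLG := mul_mem hv (inv_mem hu)
      have h1 : res (v * u⁻¹) = res (TS * w * TS⁻¹ * w⁻¹) := by
        rw [← F3, zpow_one]
        simp only [map_mul, map_inv]
      have h2 := sl_res hvu h1
      have v0 : v.1 0 = 0 := v.2.1
      have u0 : (u.1)⁻¹ 0 = 0 := (inv_mem u.2).1
      have u0' : u.1 0 = 0 := u.2.1
      have w0 : (w.1)⁻¹ 0 = 0 := (inv_mem w.2).1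
      have w0' : w.1 0 = 0 := w.2.1
      have t0 : hT 0 = 0 := T_St.1
      have t0' : (hT)⁻¹ 0 = 0 := (inv_mem T_St).1
      have e1 : sl (v * u⁻¹).1 0 = sl v.1 0 - sl u.1 0 := by
        change sl (v.1 * (u.1)⁻¹) 0 = _
        rw [sl_mul hv (inv_mem hu), u0]
        have := sl_inv hu 0
        rw [u0'] at this
        rw [this]
        ring
      have e2 : sl (TS * w * TS⁻¹ * w⁻¹).1 0 = 0 := by
        change sl (hT * w.1 * (hT)⁻¹ * (w.1)⁻¹) 0 = _
        rw [sl_mul (mul_mem (mul_mem hT_mem hw) (inv_mem hT_mem)) (inv_mem hw), w0,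
          sl_mul (mul_mem hT_mem hw) (inv_mem hT_mem), t0', sl_mul hT_mem hw, w0']
        have a1 := sl_inv hw 0
        have a2 := sl_inv hT_mem 0
        rw [w0'] at a1
        rw [t0] at a2
        rw [a1, a2]
        ring
      rw [e1, e2] at h2
      linarith
    have ha3 : ∀ s y, 1 ≤ y → y < 5 →
        ((hT ^ s)⁻¹ * (v * u⁻¹).1 * hT ^ s) y = (hY ^ (gv s - gu s)) y := by
      intro s y h1 h5
      have e : (hT ^ s)⁻¹ * (v * u⁻¹).1 * hT ^ s =
          ((hT ^ s)⁻¹ * (v.1 * hT ^ (-sl v.1 0)) * hT ^ s) *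
          ((hT ^ s)⁻¹ * (u.1 * hT ^ (-sl u.1 0)) * hT ^ s)⁻¹ := by
        change (hT ^ s)⁻¹ * (v.1 * (u.1)⁻¹) * hT ^ s = _
        rw [hj]
        group
      have hy := Y_mem h1 h5 (-gu s)
      have e2 : ((hT ^ s)⁻¹ * (u.1 * hT ^ (-sl u.1 0)) * hT ^ s)⁻¹ y = (hY ^ (-gu s)) y := by
        rw [← ((hT ^ s)⁻¹ * (u.1 * hT ^ (-sl u.1 0)) * hT ^ s).apply_eq_iff_eq, invR,
          au s _ hy.1 hy.2, ← mulA, ← zpow_add]
        simp [oneA]
      rw [e, mulA, e2, av s _ hy.1 hy.2, ← mulA, ← zpow_add]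
      rfl
    obtain ⟨gw, sw, aw, rw'⟩ := lemK' one_ne_zero hw ha3 F3
    have s1 := sum_weight sv rv
    have s2 := sum_weight su ru
    have s3 := sum_zero sw rw'
    rw [finsum_sub_distrib sv su] at s3
    rw [src_weight] at s1 s2
    have s4 : ∑ᶠ s, gv s = ∑ᶠ s, gu s := by linarith
    rw [s1, s4, s2]
    ring

end Pool.Agent.H245R3.TF
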