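import Mathlib
import Pool.Agent.H245R3.TF.Arith

set_option autoImplicit false

/-! Solutions of the multiplication gadget inside the group. -/

namespace Pool.Agent.H245R3.TF

theorem abs_exist1 {M : Type*} [AddCommGroup M] (θ : ℤ → M →+ M) (Y : ℤ → M)
    (hθ : ∀ n s, θ n (Y s) = Y (n + s)) (n q : ℤ) : ∃ v : M, θ n v - v = Y (n * q) - Y 0 := by
  induction q using Int.induction_on with
  | zero => exact ⟨0, by simp⟩
  | succ q ih =>
    obtain ⟨v, hv⟩ := ih
    refine ⟨v + Y (n * q), ?_⟩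
    have hv' : θ n v = v + Y (n * q) - Y 0 := by
      rw [sub_eq_iff_eq_add] at hv
      rw [hv]
      abel
    rw [map_add, hθ, hv', show n * ((q : ℤ) + 1) = n + n * q by ring]
    abel
  | pred q ih =>
    obtain ⟨v, hv⟩ := ih
    refine ⟨v - Y (n * (-q - 1)), ?_⟩
    have hv' : θ n v = v + Y (n * (-q)) - Y 0 := by
      rw [sub_eq_iff_eq_add] at hv
      rw [hv]
      abel
    rw [map_sub, hθ, hv', show n + n * (-(q : ℤ) - 1) = n * -q by ring]
    abel

theorem abs_exist2 {M : Type*} [AddCommGroup M] (θ : ℤ → M →+ M) (Y : ℤ → M)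
    (hθ : ∀ n s, θ n (Y s) = Y (n + s)) (n q : ℤ) : ∃ v u w : M, θ n v - v = Y (n * q) - Y 0 ∧
      θ 1 u - u = Y q - Y 0 ∧ v - u = θ 1 w - w := by
  induction q using Int.induction_on with
  | zero => exact ⟨0, 0, 0, by simp⟩
  | succ q ih =>
    obtain ⟨v, u, w, hv, hu, hw⟩ := ih
    obtain ⟨w1, hw1⟩ := abs_exist1 θ Y hθ 1 (n * q)
    obtain ⟨w2, hw2⟩ := abs_exist1 θ Y hθ 1 q
    rw [one_mul] at hw1 hw2
    refine ⟨v + Y (n * q), u + Y q, w + w1 - w2, ?_, ?_, ?_⟩
    · have hv' : θ n v = v + Y (n * q) - Y 0 := by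
        rw [sub_eq_iff_eq_add] at hv
        rw [hv]
        abel
      rw [map_add, hθ, hv', show n * ((q : ℤ) + 1) = n + n * q by ring]
      abel
    · have hv' : θ 1 u = u + Y q - Y 0 := by
        rw [sub_eq_iff_eq_add] at hu
        rw [hu]
        abel
      rw [map_add, hθ, hv', show (q : ℤ) + 1 = 1 + q by ring]
      abel
    · have e : v + Y (n * q) - (u + Y q) = (v - u) + (Y (n * q) - Y 0) - (Y q - Y 0) := by abel
      rw [e, hw, ← hw1, ← hw2, map_sub, map_add]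
      abel
  | pred q ih =>
    obtain ⟨v, u, w, hv, hu, hw⟩ := ih
    obtain ⟨w1, hw1⟩ := abs_exist1 θ Y hθ 1 (n * (-q - 1))
    obtain ⟨w2, hw2⟩ := abs_exist1 θ Y hθ 1 (-q - 1)
    rw [one_mul] at hw1 hw2
    refine ⟨v - Y (n * (-q - 1)), u - Y (-q - 1), w - w1 + w2, ?_, ?_, ?_⟩
    · have hv' : θ n v = v + Y (n * (-q)) - Y 0 := by
        rw [sub_eq_iff_eq_add] at hv
        rw [hv]
        abel
      rw [map_sub, hθ, hv', show n + n * (-(q : ℤ) - 1) = n * -q by ring]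
      abel
    · have hv' : θ 1 u = u + Y (-q) - Y 0 := by
        rw [sub_eq_iff_eq_add] at hu
        rw [hu]
        abel
      rw [map_sub, hθ, hv', show 1 + (-(q : ℤ) - 1) = -q by ring]
      abel
    · have e : v - Y (n * (-q - 1)) - (u - Y (-q - 1)) =
          (v - u) - (Y (n * (-q - 1)) - Y 0) + (Y (-q - 1) - Y 0) := by abel
      rw [e, hw, ← hw1, ← hw2, map_add, map_sub]
      abel

theorem abs_exist3 {M : Type*} [CommGroup M] (θ : ℤ → M →* M) (Y : ℤ → M)
    (hθ : ∀ n s, θ n (Y s) = Y (n + s)) (n q : ℤ) :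
    ∃ v u w : M, θ n v * v⁻¹ = Y (n * q) * (Y 0)⁻¹ ∧
      θ 1 u * u⁻¹ = Y q * (Y 0)⁻¹ ∧ v * u⁻¹ = θ 1 w * w⁻¹ := by
  simp only [← div_eq_mul_inv]
  exact abs_exist2 (M := Additive M) (fun n => (θ n).toAdditive) Y hθ n q

theorem rho_comm {g h : G} (e : rho g * rho h = rho h * rho g) : g * h = h * g := by
  apply rho_inj
  rw [map_mul, map_mul, e]

theorem l_comm_t : gE .l * gE .t = gE .t * gE .l := by
  apply rho_comm
  rw [rho_gE, rho_gE]
  exact hL_bump.comm hT_bump le_rfl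

theorem l_comm_y : gE .l * gE .y = gE .y * gE .l := by
  apply rho_comm
  rw [rho_gE, rho_gE]
  exact hL_bump.comm hY_bump (by norm_num)

theorem r_comm_t : gE .r * gE .t = gE .t * gE .r := by
  apply rho_comm
  rw [rho_gE, rho_gE]
  exact (hT_bump.comm hR_bump le_rfl).symm

theorem r_comm_y : gE .r * gE .y = gE .y * gE .r := by
  apply rho_comm
  rw [rho_gE, rho_gE]
  exact (hY_bump.comm hR_bump (by norm_num)).symm

/-- translates of the short element -/
def gY (s : ℤ) : G := gE .t ^ s * gE .y * (gE .t ^ s)⁻¹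

theorem gY_zero : gY 0 = gE .y := by simp [gY]

theorem rho_gY (s : ℤ) : rho (gY s) = cj s := by
  unfold gY cj
  rw [map_mul, map_mul, map_inv, map_zpow, rho_gE, rho_gE]
  rfl

theorem cj_bump (s : ℤ) : Bump (cj s) (pt s) (pt (s + 1)) := by
  have := hY_bump.conj (hT ^ s)
  rw [pt_succ]
  exact this

theorem gY_comm (s s' : ℤ) : gY s * gY s' = gY s' * gY s := by
  rcases lt_trichotomy s s' with h | h | h
  · apply rho_comm
    rw [rho_gY, rho_gY]
    exact (cj_bump s).comm (cj_bump s') (pt_mono.monotone (by omega))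
  · rw [h]
  · apply rho_comm
    rw [rho_gY, rho_gY]
    exact ((cj_bump s').comm (cj_bump s) (pt_mono.monotone (by omega))).symm

/-- the base group -/
def Base : Subgroup G := Subgroup.closure (Set.range gY)

theorem gY_base (s : ℤ) : gY s ∈ Base := Subgroup.subset_closure ⟨s, rfl⟩

theorem base_comm : ∀ a b : Base, a * b = b * a :=
  (Subgroup.isMulCommutative_closure (k := Set.range gY) (by
    rintro _ ⟨s, rfl⟩ _ ⟨s', rfl⟩
    exact gY_comm s s')).is_comm.comm

@[reducible] def baseComm : CommGroup Base := { Base.toGroup with mul_comm := base_comm }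

theorem base_conj (n : ℤ) {x : G} (hx : x ∈ Base) : gE .t ^ n * x * (gE .t ^ n)⁻¹ ∈ Base := by
  induction hx using Subgroup.closure_induction with
  | mem x hx =>
    obtain ⟨s, rfl⟩ := hx
    have : gE .t ^ n * gY s * (gE .t ^ n)⁻¹ = gY (n + s) := by
      unfold gY
      rw [zpow_add]
      group
    rw [this]
    exact gY_base _
  | one => simpa using one_mem Base
  | mul x y _ _ hx hy =>
    have : gE .t ^ n * (x * y) * (gE .t ^ n)⁻¹ =
      (gE .t ^ n * x * (gE .t ^ n)⁻¹) * (gE .t ^ n * y * (gE .t ^ n)⁻¹) := by group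
    rw [this]
    exact mul_mem hx hy
  | inv x _ hx =>
    have : gE .t ^ n * x⁻¹ * (gE .t ^ n)⁻¹ = (gE .t ^ n * x * (gE .t ^ n)⁻¹)⁻¹ := by group
    rw [this]
    exact inv_mem hx

/-- conjugation on the base group -/
def thb (n : ℤ) : Base →* Base where
  toFun x := ⟨gE .t ^ n * x.1 * (gE .t ^ n)⁻¹, base_conj n x.2⟩
  map_one' := by
    apply Subtype.ext
    simp
  map_mul' x y := by
    apply Subtype.ext
    simp only [Subgroup.coe_mul]
    group

theorem exist (n q : ℤ) : ∃ v u w : G, v ∈ Base ∧ u ∈ Base ∧ w ∈ Base ∧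
    gE .t ^ n * v * (gE .t ^ n)⁻¹ * v⁻¹ =
      gE .t ^ (n * q) * gE .y * (gE .t ^ (n * q))⁻¹ * (gE .y)⁻¹ ∧
    gE .t * u * (gE .t)⁻¹ * u⁻¹ = gE .t ^ q * gE .y * (gE .t ^ q)⁻¹ * (gE .y)⁻¹ ∧
    v * u⁻¹ = gE .t * w * (gE .t)⁻¹ * w⁻¹ := by
  let _ := baseComm
  have hth : ∀ n s, thb n ⟨gY s, gY_base s⟩ = ⟨gY (n + s), gY_base _⟩ := by
    intro n s
    apply Subtype.ext
    change gE .t ^ n * gY s * (gE .t ^ n)⁻¹ = gY (n + s)
    unfold gY
    rw [zpow_add]
    group
  obtain ⟨v, u, w, hv, hu, hw⟩ := abs_exist3 (M := Base) thb (fun s => ⟨gY s, gY_base s⟩) hth n q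
  refine ⟨v.1, u.1, w.1, v.2, u.2, w.2, ?_, ?_, ?_⟩
  · have := congrArg Subtype.val hv
    change gE .t ^ n * v.1 * (gE .t ^ n)⁻¹ * (v.1)⁻¹ = gY (n * q) * (gY 0)⁻¹ at this
    rw [this, gY_zero]
    rfl
  · have := congrArg Subtype.val hu
    change gE .t ^ (1 : ℤ) * u.1 * (gE .t ^ (1 : ℤ))⁻¹ * (u.1)⁻¹ = gY q * (gY 0)⁻¹ at this
    rw [zpow_one] at this
    rw [this, gY_zero]
    rfl
  · have := congrArg Subtype.val hw
    change v.1 * (u.1)⁻¹ = gE .t ^ (1 : ℤ) * w.1 * (gE .t ^ (1 : ℤ))⁻¹ * (w.1)⁻¹ at this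
    rw [zpow_one] at this
    exact this

theorem base_comm_lr {k : Kd} (h1 : gE k * gE .t = gE .t * gE k)
    (h2 : gE k * gE .y = gE .y * gE k) {x : G} (hx : x ∈ Base) : x * gE k = gE k * x := by
  induction hx using Subgroup.closure_induction with
  | mem x hx =>
    obtain ⟨s, rfl⟩ := hx
    have c1 : Commute (gE k) (gE .t) := h1
    have c2 : Commute (gE k) (gE .y) := h2
    have c3 : Commute (gE k) (gY s) :=
      ((c1.zpow_right s).mul_right c2).mul_right (c1.zpow_right s).inv_right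
    exact c3.symm
  | one => simp
  | mul x y _ _ hx hy =>
    rw [mul_assoc, hy, ← mul_assoc, hx, mul_assoc]
  | inv x _ hx =>
    have : Commute x (gE k) := hx
    exact this.inv_left

end Pool.Agent.H245R3.TF
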