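import Mathlib
import Pool.Agent.H245R3.TF.Exist
import Pool.Agent.Helper844.Sys

set_option autoImplicit false

/-! Constraints written as words, and their meaning. -/

namespace Pool.Agent.H245R3.TF

open Pool.Agent.Helper844.Sys

/-- words -/
abbrev W := FreeGroup (ℕ ⊕ Bool)

def ka : W := FreeGroup.of (Sum.inr false)
def kb : W := FreeGroup.of (Sum.inr true)
def kE (k : Kd) : W := ce ka kb k
def xv (i : ℕ) : W := FreeGroup.of (Sum.inl i)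

/-- first relation -/
def w1 (zn v p : W) : W := zn * v * zn⁻¹ * v⁻¹ * (p * kE .y * p⁻¹ * (kE .y)⁻¹)⁻¹
/-- second relation -/
def w2 (u zq : W) : W := kE .t * u * (kE .t)⁻¹ * u⁻¹ * (zq * kE .y * zq⁻¹ * (kE .y)⁻¹)⁻¹
/-- third relation -/
def w3 (v u w : W) : W := v * u⁻¹ * (kE .t * w * (kE .t)⁻¹ * w⁻¹)⁻¹
/-- the linear relation -/
def w4 (p zk zl zm : W) (e a b c d : ℤ) : W := p ^ e * zk ^ a * zl ^ b * zm ^ c * kE .t ^ d

/-- the constraints attached to an equation -/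
def eqC {V : Type} (z : V → ℕ) (q : Eqn V) (p v u w : ℕ) : List (W × Kd) :=
  [(xv p, .t), (xv v, .l), (xv v, .r), (xv u, .l), (xv u, .r), (xv w, .l), (xv w, .r),
   (w1 (xv (z q.i)) (xv v) (xv p), .t), (w1 (xv (z q.i)) (xv v) (xv p), .y),
   (w2 (xv u) (xv (z q.j)), .t), (w2 (xv u) (xv (z q.j)), .y),
   (w3 (xv v) (xv u) (xv w), .t), (w3 (xv v) (xv u) (xv w), .y),
   (w4 (xv p) (xv (z q.k)) (xv (z q.l)) (xv (z q.m)) q.e q.a q.b q.c q.d, .y)]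

/-- weak satisfaction -/
def wk (h : W →* H) (c : W × Kd) : Prop :=
  ∃ m : ℕ, 1 ≤ m ∧ h c.1 * hE c.2 ^ m = hE c.2 ^ m * h c.1

theorem TS_zpow (j : ℤ) : (TS ^ j).1 = hT ^ j := by
  rw [Subgroup.coe_zpow]
  rfl

theorem res_of {h : H} (hS : h ∈ St) {j : ℤ} (hj : ∀ x, 0 ≤ x → x ≤ 6 → h x = (hT ^ j) x) :
    res ⟨h, hS⟩ = res TS ^ j := by
  rw [← map_zpow, res_eq]
  intro x h0 h6
  rw [TS_zpow]
  exact hj x h0 h6

theorem exp_zero {h : St} {j : ℤ} (hr : res h = res TS ^ j) {m : ℕ} (hm : 1 ≤ m)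
    (hc : h.1 * hY ^ m = hY ^ m * h.1) : j = 0 := by
  have h1 : h.1 1 = 1 := ((hY_bump.pow hm).fix_of_comm hc).1
  rw [← map_zpow, res_eq] at hr
  rw [hr 1 (by norm_num) (by norm_num), TS_zpow] at h1
  exact hT_bump.zpow_fix (by norm_num) (by norm_num) h1

theorem wk_St {h : W →* H} {w : W} (h1 : wk h (w, .l)) (h2 : wk h (w, .r)) : h w ∈ St := by
  obtain ⟨m, hm, e⟩ := h1
  obtain ⟨m', hm', e'⟩ := h2
  rw [mem_St]
  exact ⟨((hL_bump.pow hm).fix_of_comm e).2, ((hR_bump.pow hm').fix_of_comm e').1⟩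

theorem wk_T {h : W →* H} (hm : ∀ w, h w ∈ PLG) {w : W} (h1 : wk h (w, .t)) :
    h w ∈ St ∧ ∃ j : ℤ, ∀ x, 0 ≤ x → x ≤ 6 → h w x = (hT ^ j) x := by
  obtain ⟨m, hm', e⟩ := h1
  exact comm_T (hm w) hm' e

theorem wk_TY {h : W →* H} (hm : ∀ w, h w ∈ PLG) {w : W} (h1 : wk h (w, .t))
    (h2 : wk h (w, .y)) {s : St} (hs : s.1 = h w) : res s = 1 := by
  obtain ⟨m, hm', e⟩ := h1
  obtain ⟨m2, hm2, e2⟩ := h2
  have := comm_TY (hm w) hm' hm2 e e2
  rw [← map_one res, res_eq]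
  intro x h0 h6
  rw [hs, this x h0 h6]
  rfl

theorem eqC_sound {V : Type} (z : V → ℕ) (q : Eqn V) (p v u w : ℕ) (h : W →* H)
    (hk : ∀ k, h (kE k) = hE k) (hm : ∀ w, h w ∈ PLG) (x : V → ℤ)
    (hz : ∀ v, h (xv (z v)) ∈ St ∧ ∀ y, 0 ≤ y → y ≤ 6 → h (xv (z v)) y = (hT ^ (x v)) y)
    (hC : ∀ c ∈ eqC z q p v u w, wk h c) : q.Holds x := by
  have c1 := hC (xv p, .t) (by simp [eqC])
  have c2 := hC (xv v, .l) (by simp [eqC])
  have c3 := hC (xv v, .r) (by simp [eqC])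
  have c4 := hC (xv u, .l) (by simp [eqC])
  have c5 := hC (xv u, .r) (by simp [eqC])
  have c6 := hC (xv w, .l) (by simp [eqC])
  have c7 := hC (xv w, .r) (by simp [eqC])
  have c8 := hC (w1 (xv (z q.i)) (xv v) (xv p), .t) (by simp [eqC])
  have c9 := hC (w1 (xv (z q.i)) (xv v) (xv p), .y) (by simp [eqC])
  have c10 := hC (w2 (xv u) (xv (z q.j)), .t) (by simp [eqC])
  have c11 := hC (w2 (xv u) (xv (z q.j)), .y) (by simp [eqC])
  have c12 := hC (w3 (xv v) (xv u) (xv w), .t) (by simp [eqC])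
  have c13 := hC (w3 (xv v) (xv u) (xv w), .y) (by simp [eqC])
  have c14 := hC (w4 (xv p) (xv (z q.k)) (xv (z q.l)) (xv (z q.m)) q.e q.a q.b q.c q.d, .y)
    (by simp [eqC])
  obtain ⟨pS, pj, hp⟩ := wk_T hm c1
  have vS := wk_St c2 c3
  have uS := wk_St c4 c5
  have wS := wk_St c6 c7
  have hky : h (kE .y) = hY := hk .y
  have hkt : h (kE .t) = hT := hk .t
  have rz : ∀ v, res ⟨h (xv (z v)), (hz v).1⟩ = res TS ^ (x v) := fun v => res_of (hz v).1 (hz v).2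
  have rp : res ⟨h (xv p), pS⟩ = res TS ^ pj := res_of pS hp
  have g := gadget (n := x q.i) (q := x q.j) (k := pj) (zn := ⟨h (xv (z q.i)), (hz q.i).1⟩)
    (zq := ⟨h (xv (z q.j)), (hz q.j).1⟩) (zk := ⟨h (xv p), pS⟩) (v := ⟨h (xv v), vS⟩)
    (u := ⟨h (xv u), uS⟩) (w := ⟨h (xv w), wS⟩) (hm _) (hm _) (hm _) (rz _) (rz _) rp
    (wk_TY hm c8 c9 (by
      simp only [w1, map_mul, map_inv, hky]
      rfl))
    (wk_TY hm c10 c11 (by
      simp only [w2, map_mul, map_inv, hky, hkt]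
      rfl))
    (wk_TY hm c12 c13 (by
      simp only [w3, map_mul, map_inv, hkt]
      rfl))
  obtain ⟨m, hm', e⟩ := c14
  have e0 := exp_zero (h := (⟨h (xv p), pS⟩ : St) ^ q.e * (⟨h (xv (z q.k)), (hz q.k).1⟩ : St) ^ q.a *
    (⟨h (xv (z q.l)), (hz q.l).1⟩ : St) ^ q.b * (⟨h (xv (z q.m)), (hz q.m).1⟩ : St) ^ q.c *
    TS ^ q.d) (j := pj * q.e + x q.k * q.a + x q.l * q.b + x q.m * q.c + q.d) (by
      simp only [map_mul, map_zpow, rz, rp, ← zpow_mul, ← zpow_add]) hm' (by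
      have e1 : ((⟨h (xv p), pS⟩ : St) ^ q.e * (⟨h (xv (z q.k)), (hz q.k).1⟩ : St) ^ q.a *
          (⟨h (xv (z q.l)), (hz q.l).1⟩ : St) ^ q.b * (⟨h (xv (z q.m)), (hz q.m).1⟩ : St) ^ q.c *
          TS ^ q.d).1 = h (w4 (xv p) (xv (z q.k)) (xv (z q.l)) (xv (z q.m))
            q.e q.a q.b q.c q.d) := by
        simp only [w4, map_mul, map_zpow, hkt, Subgroup.coe_mul, Subgroup.coe_zpow]
        rfl
      rw [e1]
      exact e)
  unfold Eqn.Holds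
  rw [g] at e0
  linarith

/-- strong satisfaction -/
def stg (φ : W →* G) (c : W × Kd) : Prop := φ c.1 * gE c.2 = gE c.2 * φ c.1

theorem eqC_complete {V : Type} (z : V → ℕ) (q : Eqn V) (p v u w : ℕ) (φ : W →* G)
    (hk : ∀ k, φ (kE k) = gE k) (x : V → ℤ)
    (hz : ∀ v, φ (xv (z v)) = gE .t ^ (x v)) (hp : φ (xv p) = gE .t ^ (x q.i * x q.j))
    (hv : φ (xv v) ∈ Base) (hu : φ (xv u) ∈ Base) (hw : φ (xv w) ∈ Base)
    (h1 : gE .t ^ (x q.i) * φ (xv v) * (gE .t ^ (x q.i))⁻¹ * (φ (xv v))⁻¹ =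
      gE .t ^ (x q.i * x q.j) * gE .y * (gE .t ^ (x q.i * x q.j))⁻¹ * (gE .y)⁻¹)
    (h2 : gE .t * φ (xv u) * (gE .t)⁻¹ * (φ (xv u))⁻¹ =
      gE .t ^ (x q.j) * gE .y * (gE .t ^ (x q.j))⁻¹ * (gE .y)⁻¹)
    (h3 : φ (xv v) * (φ (xv u))⁻¹ = gE .t * φ (xv w) * (gE .t)⁻¹ * (φ (xv w))⁻¹)
    (hq : q.Holds x) : ∀ c ∈ eqC z q p v u w, stg φ c := by
  have f1 : φ (w1 (xv (z q.i)) (xv v) (xv p)) = 1 := by
    simp only [w1, map_mul, map_inv, hk, hz, hp]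
    rw [h1, mul_inv_cancel]
  have f2 : φ (w2 (xv u) (xv (z q.j))) = 1 := by
    simp only [w2, map_mul, map_inv, hk, hz]
    rw [h2, mul_inv_cancel]
  have f3 : φ (w3 (xv v) (xv u) (xv w)) = 1 := by
    simp only [w3, map_mul, map_inv, hk]
    rw [h3, mul_inv_cancel]
  have f4 : φ (w4 (xv p) (xv (z q.k)) (xv (z q.l)) (xv (z q.m)) q.e q.a q.b q.c q.d) = 1 := by
    simp only [w4, map_mul, map_zpow, hk, hz, hp, ← zpow_mul, ← zpow_add]
    have : x q.i * x q.j * q.e + x q.k * q.a + x q.l * q.b + x q.m * q.c + q.d = 0 := by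
      unfold Eqn.Holds at hq
      linarith
    rw [this, zpow_zero]
  have one : ∀ g : G, 1 * g = g * 1 := fun g => by simp
  intro c hc
  simp only [eqC, List.mem_cons, List.not_mem_nil, or_false] at hc
  rcases hc with rfl | rfl | rfl | rfl | rfl | rfl | rfl | rfl | rfl | rfl | rfl | rfl | rfl | rfl
  · change φ (xv p) * gE .t = gE .t * φ (xv p)
    rw [hp]
    exact (Commute.refl (gE .t)).zpow_left _
  · exact base_comm_lr l_comm_t l_comm_y hv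
  · exact base_comm_lr r_comm_t r_comm_y hv
  · exact base_comm_lr l_comm_t l_comm_y hu
  · exact base_comm_lr r_comm_t r_comm_y hu
  · exact base_comm_lr l_comm_t l_comm_y hw
  · exact base_comm_lr r_comm_t r_comm_y hw
  all_goals
    unfold stg
    simp only [f1, f2, f3, f4]
    exact one _

end Pool.Agent.H245R3.TF
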