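import Mathlib
import Pool.Agent.H245R3.TF.Words

set_option autoImplicit false

/-! The reduction. -/

namespace Pool.Agent.H245R3.TF

open Pool.Agent.Helper844.Sys Pool.Agent.Helper844.Dio

/-- evaluation of words -/
def ev (σ : ℕ → G) : W →* G :=
  FreeGroup.lift (Sum.elim σ (fun b : Bool => (PresentedGroup.of b : G)))

theorem ev_ka (σ : ℕ → G) : ev σ ka = ga := by
  simp [ev, ka, ga]

theorem ev_kb (σ : ℕ → G) : ev σ kb = gb := by
  simp [ev, kb, gb]

theorem ev_xv (σ : ℕ → G) (i : ℕ) : ev σ (xv i) = σ i := by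
  simp [ev, xv]

theorem ev_kE (σ : ℕ → G) (k : Kd) : ev σ (kE k) = gE k := by
  unfold kE gE
  rw [map_ce, ev_ka, ev_kb]

/-- computable families of words -/
def CW (w : ℕ → W) : Prop :=
  ∃ f : ℕ → List ((ℕ ⊕ Bool) × Bool), Computable f ∧ ∀ n, FreeGroup.mk (f n) = w n

theorem CW.const (w : W) : CW fun _ => w :=
  ⟨fun _ => w.toWord, Computable.const _, fun _ => FreeGroup.mk_toWord⟩

theorem CW.mul {w w' : ℕ → W} (h : CW w) (h' : CW w') : CW fun n => w n * w' n := by
  obtain ⟨f, hf, e⟩ := h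
  obtain ⟨f', hf', e'⟩ := h'
  refine ⟨fun n => f n ++ f' n, (Primrec.list_append.to_comp).comp hf hf', fun n => ?_⟩
  rw [← FreeGroup.mul_mk, e, e']

theorem CW.inv {w : ℕ → W} (h : CW w) : CW fun n => (w n)⁻¹ := by
  obtain ⟨f, hf, e⟩ := h
  have hp : Primrec (fun L : List ((ℕ ⊕ Bool) × Bool) => FreeGroup.invRev L) := by
    unfold FreeGroup.invRev
    refine Primrec.list_reverse.comp (Primrec.list_map Primrec.id ?_)
    exact (Primrec.pair (Primrec.fst.comp Primrec.snd)
      (Primrec.not.comp (Primrec.snd.comp Primrec.snd))).to₂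
  refine ⟨fun n => FreeGroup.invRev (f n), hp.to_comp.comp hf, fun n => ?_⟩
  rw [← FreeGroup.inv_mk, e]

theorem CW.npow (w : W) : CW fun n => w ^ n := by
  have hp : Primrec (fun n : ℕ => (Nat.rec [] (fun _ acc => acc ++ w.toWord) n :
      List ((ℕ ⊕ Bool) × Bool))) := by
    refine Primrec.nat_rec₁ _ ?_
    exact (Primrec.list_append.comp Primrec.snd (Primrec.const _)).to₂
  refine ⟨_, hp.to_comp, fun n => ?_⟩
  induction n with
  | zero => rfl
  | succ n ih =>
    change FreeGroup.mk (_ ++ w.toWord) = w ^ (n + 1)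
    change FreeGroup.mk _ = w ^ n at ih
    rw [pow_succ, ← ih, ← FreeGroup.mul_mk, FreeGroup.mk_toWord]

theorem CW.pr {F : ℕ → ℕ → W} (h : ∀ i, CW fun n => F n i) (N : ℕ) :
    CW fun n => TF.pr (F n) N := by
  induction N with
  | zero => exact CW.const 1
  | succ N ih => exact ih.mul (h N)

/-- words of the constraints -/
def cw (w0 : ℕ → W) (C : List (W × Kd)) (n : ℕ) : ℕ → W
  | 0 => w0 n
  | i + 1 => (C.getD i (1, .t)).1

/-- kinds of the constraints -/
def ck (C : List (W × Kd)) : ℕ → Kd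
  | 0 => .y
  | i + 1 => (C.getD i (1, .t)).2

theorem cwk (w0 : ℕ → W) (C : List (W × Kd)) (n i : ℕ) (hi : i < C.length) :
    (cw w0 C n (i + 1), ck C (i + 1)) = C[i] := by
  change ((C.getD i (1, .t)).1, (C.getD i (1, .t)).2) = C[i]
  rw [List.getD_eq_getElem _ _ hi]

def ktau : W := ka⁻¹

theorem ev_ktau (σ : ℕ → G) : ev σ ktau = ga⁻¹ := by
  unfold ktau
  rw [map_inv, ev_ka]

/-- the two sides -/
def lhs (w0 : ℕ → W) (C : List (W × Kd)) (N n i : ℕ) : W :=
  ktau ^ (16 * i) * (cw w0 C n i * kE (ck C i) ^ (N + i) * (cw w0 C n i)⁻¹) * (ktau ^ (16 * i))⁻¹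

def rhs (C : List (W × Kd)) (N i : ℕ) : W :=
  ktau ^ (16 * i) * kE (ck C i) ^ (N + i) * (ktau ^ (16 * i))⁻¹

def eqn (w0 : ℕ → W) (C : List (W × Kd)) (N n : ℕ) : W :=
  pr (lhs w0 C N n) N * (pr (rhs C N) N)⁻¹

theorem eqn_CW {w0 : ℕ → W} (h0 : CW w0) (C : List (W × Kd)) (N : ℕ) : CW (eqn w0 C N) := by
  have hc : ∀ i, CW fun n => cw w0 C n i := by
    intro i
    cases i with
    | zero => exact h0
    | succ i => exact CW.const _
  refine CW.mul (CW.pr (fun i => ?_) N) (CW.const _)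
  exact ((CW.const _).mul (((hc i).mul (CW.const _)).mul (hc i).inv)).mul (CW.const _)

theorem eqn_complete {w0 : ℕ → W} {C : List (W × Kd)} {N n : ℕ} {σ : ℕ → G}
    (h : ∀ i < N, stg (ev σ) (cw w0 C n i, ck C i)) : ev σ (eqn w0 C N n) = 1 := by
  unfold eqn
  rw [map_mul, map_inv, mul_inv_eq_one, map_pr, map_pr]
  apply pr_congr
  intro i hi
  have h1 := h i hi
  unfold stg at h1
  have h2 : Commute (ev σ (cw w0 C n i)) (gE (ck C i) ^ (N + i)) :=
    Commute.pow_right (show Commute _ _ from h1) _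
  unfold lhs rhs
  simp only [map_mul, map_inv, map_pow, ev_kE]
  rw [h2.eq]
  group

theorem eqn_sound {w0 : ℕ → W} {C : List (W × Kd)} {N n : ℕ} {σ : ℕ → G}
    (h : ev σ (eqn w0 C N n) = 1) : ∀ i < N, wk (rho.comp (ev σ)) (cw w0 C n i, ck C i) := by
  unfold eqn at h
  rw [map_mul, map_inv, mul_inv_eq_one, map_pr, map_pr] at h
  have h1 := congrArg rho h
  rw [map_pr, map_pr] at h1
  have h2 := merge_hE (N := N) (fun i => ck C i) (fun i => rho (ev σ (cw w0 C n i)))
    (fun i _ => rho_mem _) (by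
      have e1 : ∀ i, rho (ev σ (lhs w0 C N n i)) = tau ^ (16 * i) * (rho (ev σ (cw w0 C n i)) *
          hE (ck C i) ^ (N + i) * (rho (ev σ (cw w0 C n i)))⁻¹) * (tau ^ (16 * i))⁻¹ := by
        intro i
        unfold lhs
        simp only [map_mul, map_inv, map_pow, ev_kE, ev_ktau, rho_gE, rho_a, inv_inv]
      have e2 : ∀ i, rho (ev σ (rhs C N i)) = tau ^ (16 * i) *
          hE (ck C i) ^ (N + i) * (tau ^ (16 * i))⁻¹ := by
        intro i
        unfold rhs
        simp only [map_mul, map_inv, map_pow, ev_kE, ev_ktau, rho_gE, rho_a, inv_inv]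
      simp only [e1, e2] at h1
      exact h1)
  intro i hi
  exact ⟨N + i, by omega, h2 i hi⟩

theorem main_red (S : ℕ → Prop) (hS : Dioph {v : Unit → ℕ | S (v ())}) :
    ∃ f : ℕ → List ((ℕ ⊕ Bool) × Bool), Computable f ∧
      ∀ n, S n ↔ ∃ σ : ℕ → G, ev σ (FreeGroup.mk (f n)) = 1 := by
  obtain ⟨V, _, f, L, hL⟩ := exists_system S hS
  obtain ⟨ι, hι⟩ := Countable.exists_injective_nat (V ⊕ (Fin L.length × Fin 4))
  let z : V → ℕ := fun v => ι (Sum.inl v)
  let C : List (W × Kd) := (Finset.univ : Finset V).toList.map (fun v => (xv (z v), Kd.t)) ++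
    (List.finRange L.length).flatMap (fun i => eqC z (L.get i) (ι (Sum.inr (i, 0)))
      (ι (Sum.inr (i, 1))) (ι (Sum.inr (i, 2))) (ι (Sum.inr (i, 3))))
  let w0 : ℕ → W := fun n => xv (z f) * (kE .t ^ 4) ^ n * (kE .t)⁻¹
  have h0 : CW w0 := ((CW.const _).mul (CW.npow _)).mul (CW.const _)
  obtain ⟨F, hF, hF'⟩ := eqn_CW h0 C (C.length + 1)
  refine ⟨F, hF, fun n => ?_⟩
  rw [hF']
  constructor
  · intro hn
    obtain ⟨x, hxf, hx⟩ := (hL (1 - 4 * n)).2 ⟨n, hn, rfl⟩
    choose vv uu ww hv hu hw h1 h2 h3 using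
      fun i : Fin L.length => exist (x (L.get i).i) (x (L.get i).j)
    let s : V ⊕ (Fin L.length × Fin 4) → G := Sum.elim (fun v => gE .t ^ (x v))
      (fun ij => ![gE .t ^ (x (L.get ij.1).i * x (L.get ij.1).j), vv ij.1, uu ij.1, ww ij.1] ij.2)
    let σ : ℕ → G := Function.extend ι s (fun _ => 1)
    have hσ : ∀ a, σ (ι a) = s a := fun a => hι.extend_apply _ _ _
    have hz : ∀ v, ev σ (xv (z v)) = gE .t ^ (x v) := by
      intro v
      rw [ev_xv, hσ]
      rfl
    refine ⟨σ, eqn_complete ?_⟩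
    have hall : ∀ c ∈ C, stg (ev σ) c := by
      intro c hc
      rw [List.mem_append] at hc
      rcases hc with hc | hc
      · rw [List.mem_map] at hc
        obtain ⟨v, _, rfl⟩ := hc
        change ev σ (xv (z v)) * gE .t = gE .t * ev σ (xv (z v))
        rw [hz]
        exact (Commute.refl (gE .t)).zpow_left _
      · rw [List.mem_flatMap] at hc
        obtain ⟨i, _, hc⟩ := hc
        have g0 : ev σ (xv (ι (Sum.inr (i, 0)))) = gE .t ^ (x (L.get i).i * x (L.get i).j) := by
          rw [ev_xv, hσ]; rfl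
        have g1 : ev σ (xv (ι (Sum.inr (i, 1)))) = vv i := by
          rw [ev_xv, hσ]; rfl
        have g2 : ev σ (xv (ι (Sum.inr (i, 2)))) = uu i := by
          rw [ev_xv, hσ]; rfl
        have g3 : ev σ (xv (ι (Sum.inr (i, 3)))) = ww i := by
          rw [ev_xv, hσ]; rfl
        refine eqC_complete z (L.get i) _ _ _ _ (ev σ) (ev_kE σ) x hz g0 ?_ ?_ ?_ ?_ ?_ ?_
          (hx _ (List.get_mem L i)) c hc
        · rw [g1]; exact hv i
        · rw [g2]; exact hu i
        · rw [g3]; exact hw i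
        · rw [g1]; exact h1 i
        · rw [g2]; exact h2 i
        · rw [g1, g2, g3]; exact h3 i
    intro i hi
    cases i with
    | zero =>
      change ev σ (w0 n) * gE .y = gE .y * ev σ (w0 n)
      have : ev σ (w0 n) = 1 := by
        simp only [w0, map_mul, map_pow, map_inv, ev_kE]
        rw [hz, hxf, ← pow_mul, ← zpow_natCast, ← zpow_add, ← zpow_neg_one, ← zpow_add]
        have : (1 : ℤ) - 4 * n + ((4 * n : ℕ) : ℤ) + -1 = 0 := by push_cast; ring
        rw [this, zpow_zero]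
      rw [this]
      simp
    | succ i =>
      have hi' : i < C.length := by omega
      have := hall (C[i]) (List.getElem_mem hi')
      rw [cwk w0 C n i hi']
      exact this
  · rintro ⟨σ, hσ⟩
    have hs := eqn_sound hσ
    set h : W →* H := rho.comp (ev σ) with hh
    have hall : ∀ c ∈ C, wk h c := by
      intro c hc
      obtain ⟨i, hi, rfl⟩ := List.mem_iff_getElem.1 hc
      have := hs (i + 1) (by omega)
      rw [cwk w0 C n i hi] at this
      exact this
    have hin : wk h (w0 n, .y) := hs 0 (by omega)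
    have hk : ∀ k, h (kE k) = hE k := by
      intro k
      rw [hh, MonoidHom.comp_apply, ev_kE, rho_gE]
    have hm : ∀ w, h w ∈ PLG := fun w => rho_mem _
    have hzz : ∀ v, h (xv (z v)) ∈ St ∧ ∃ j : ℤ, ∀ y, 0 ≤ y → y ≤ 6 →
        h (xv (z v)) y = (hT ^ j) y := by
      intro v
      apply wk_T hm
      apply hall
      apply List.mem_append_left
      rw [List.mem_map]
      exact ⟨v, by simp, rfl⟩
    choose hzS x hx using hzz
    have hHolds : ∀ q ∈ L, q.Holds x := by
      intro q hq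
      obtain ⟨i, hi, rfl⟩ := List.mem_iff_get.1 hq
      refine eqC_sound z (L.get i) (ι (Sum.inr (i, 0))) (ι (Sum.inr (i, 1)))
        (ι (Sum.inr (i, 2))) (ι (Sum.inr (i, 3))) h hk hm x (fun v => ⟨hzS v, hx v⟩) ?_
      intro c hc
      apply hall
      apply List.mem_append_right
      rw [List.mem_flatMap]
      exact ⟨i, List.mem_finRange i, hc⟩
    have hxf : x f + 4 * n - 1 = 0 := by
      obtain ⟨m, hm', e⟩ := hin
      have hkt : h (kE .t) = hT := hk .t
      refine exp_zero (h := (⟨h (xv (z f)), hzS f⟩ : St) * (TS ^ 4) ^ n * TS⁻¹) ?_ hm' ?_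
      · rw [map_mul, map_mul, map_pow, map_pow, map_inv, res_of (hzS f) (hx f), ← pow_mul,
          ← zpow_natCast, ← zpow_neg_one, ← zpow_add, ← zpow_add]
        rfl
      · have e1 : ((⟨h (xv (z f)), hzS f⟩ : St) * (TS ^ 4) ^ n * TS⁻¹).1 = h (w0 n) := by
          simp only [w0, map_mul, map_pow, map_inv, hkt]
          rfl
        rw [e1]
        exact e
    obtain ⟨n', hn', e⟩ := (hL (x f)).1 ⟨x, rfl, hHolds⟩
    have : n = n' := by omega
    rw [this]
    exact hn'

end Pool.Agent.H245R3.TF
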